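import Pool.Agent.N444.Phy.AutI

/-!
# The automaton of the partitions with a marked class
-/

set_option autoImplicit false

namespace Pool.Agent.N444.Phy
open Pool.Agent.R935.Phylo Finset

variable {N : ℕ}

/-- transitions: `0`, `1` before the marked class (closed, open), `2` inside it,
`3`, `4` after it (closed, open). -/
def trC (al be ga op cl : ℕ → Bool) (i : ℕ) (s : Fin 5) (a : Fin 3) (s' : Fin 5) : Bool :=
  match s, a, s' with
  | 0, 0, 0 => true
  | 0, 1, 1 => !al i
  | 0, 1, 2 => op i && !be i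
  | 1, 0, 1 => true
  | 1, 1, 1 => !al i
  | 1, 2, 0 => !al i
  | 2, 0, 2 => true
  | 2, 1, 2 => !be i
  | 2, 2, 3 => cl i && !be i
  | 3, 0, 3 => true
  | 3, 1, 4 => !ga i
  | 4, 0, 4 => true
  | 4, 1, 4 => !ga i
  | 4, 2, 3 => !ga i
  | _, _, _ => false

open Classical in
noncomputable def stC (c0 : Fin N) (Q : Setoid (Fin N)) (i : ℕ) : Fin 5 :=
  if (∃ c : Fin N, c.val < i ∧ Q c0 c) then
    (if (∃ c : Fin N, i ≤ c.val ∧ Q c0 c) then 2 else if openAt Q i then 4 else 3)
  else if openAt Q i then 1 else 0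

section
variable {c0 : Fin N} {Q : Setoid (Fin N)} {i : ℕ}

theorem stC_zero (h1 : ¬ ∃ c : Fin N, c.val < i ∧ Q c0 c) (h2 : ¬ openAt Q i) :
    stC c0 Q i = 0 := by
  unfold stC; rw [if_neg h1, if_neg h2]

theorem stC_one (h1 : ¬ ∃ c : Fin N, c.val < i ∧ Q c0 c) (h2 : openAt Q i) :
    stC c0 Q i = 1 := by
  unfold stC; rw [if_neg h1, if_pos h2]

theorem stC_two (h1 : ∃ c : Fin N, c.val < i ∧ Q c0 c) (h2 : ∃ c : Fin N, i ≤ c.val ∧ Q c0 c) :
    stC c0 Q i = 2 := by
  unfold stC; rw [if_pos h1, if_pos h2]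

theorem stC_three (h1 : ∃ c : Fin N, c.val < i ∧ Q c0 c)
    (h2 : ¬ ∃ c : Fin N, i ≤ c.val ∧ Q c0 c) (h3 : ¬ openAt Q i) :
    stC c0 Q i = 3 := by
  unfold stC; rw [if_pos h1, if_neg h2, if_neg h3]

theorem stC_four (h1 : ∃ c : Fin N, c.val < i ∧ Q c0 c)
    (h2 : ¬ ∃ c : Fin N, i ≤ c.val ∧ Q c0 c) (h3 : openAt Q i) :
    stC c0 Q i = 4 := by
  unfold stC; rw [if_pos h1, if_neg h2, if_pos h3]

theorem stC_start : stC c0 Q 0 = 0 :=
  stC_zero (by rintro ⟨c, h, -⟩; omega) (not_open_zero Q)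

theorem stC_end : stC c0 Q N = 3 :=
  stC_three ⟨c0, c0.2, Q.refl' _⟩ (by rintro ⟨c, h, -⟩; have := c.2; omega) (not_open_end Q)

end

theorem validC {al be ga op cl : ℕ → Bool} {Q : Setoid (Fin N)} {c0 : Fin N} (hQ : Conv 1 Q)
    (h2 : ∃ c, Q c0 c ∧ c ≠ c0)
    (hal : ∀ x : Fin N, (∀ c, Q c0 c → x < c) → al x = true → x ∈ sing Q)
    (hbe : ∀ x : Fin N, Q c0 x → be x = false)
    (hga : ∀ x : Fin N, (∀ c, Q c0 c → c < x) → ga x = true → x ∈ sing Q)
    (hop : ∀ x : Fin N, Q c0 x → (∀ c, Q c0 c → x ≤ c) → op x = true)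
    (hcl : ∀ x : Fin N, Q c0 x → (∀ c, Q c0 c → c ≤ x) → cl x = true)
    (i : ℕ) (hi : i < N) :
    trC al be ga op cl i (stC c0 Q i) (lt Q ⟨i, hi⟩) (stC c0 Q (i + 1)) = true := by
  set x0 : Fin N := ⟨i, hi⟩ with hx0
  have hv : (x0 : ℕ) = i := rfl
  by_cases hL : ∃ c : Fin N, c.val < i ∧ Q c0 c
  · have hL' : ∃ c : Fin N, c.val < i + 1 ∧ Q c0 c := by
      obtain ⟨c, h, h'⟩ := hL
      exact ⟨c, by omega, h'⟩
    by_cases hR : ∃ c : Fin N, i ≤ c.val ∧ Q c0 c
    · -- inside the marked class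
      rw [stC_two hL hR]
      obtain ⟨c1, h3, h4⟩ := hL
      obtain ⟨c2, h5, h6⟩ := hR
      have h7 : Q c1 c2 := Q.trans' (Q.symm' h4) h6
      rcases fin3 (lt Q x0) with hl | hl | hl
      · rw [hl, stC_two hL' ⟨c2, wit_S (i := x0) h3 h5 h7 hl, h6⟩]
        rfl
      · rw [hl]
        have h8 := mem_of_hull (i := x0) hQ h3 h5 h7 (by rw [hl]; decide)
        have h9 : Q c0 x0 := Q.trans' h4 h8
        obtain ⟨y', h10, h11⟩ := lt_one.1 hl
        rw [stC_two hL' ⟨y', h10, Q.trans' h9 h11⟩]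
        have := hbe x0 h9
        simp only [hv] at this
        simp [trC, this]
      · rw [hl]
        have h8 := mem_of_hull (i := x0) hQ h3 h5 h7 (by rw [hl]; decide)
        have h9 : Q c0 x0 := Q.trans' h4 h8
        have hmax := (lt_two.1 hl).2
        rw [stC_three hL' _ (not_open_of_two (i := x0) hQ hl)]
        · have h10 := hbe x0 h9
          have h11 := hcl x0 h9 (fun c hc => hmax c (Q.trans' (Q.symm' h9) hc))
          simp only [hv] at h10 h11
          simp [trC, h10, h11]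
        · rintro ⟨c, h12, h13⟩
          have : c ≤ x0 := hmax c (Q.trans' (Q.symm' h9) h13)
          have : (c : ℕ) ≤ i := this
          omega
    · -- after the marked class
      have hR' : ¬ ∃ c : Fin N, i + 1 ≤ c.val ∧ Q c0 c := by
        rintro ⟨c, h, h'⟩
        exact hR ⟨c, by omega, h'⟩
      have hall : ∀ c, Q c0 c → c < x0 := by
        intro c hc
        by_contra hcon
        exact hR ⟨c, not_lt.1 hcon, hc⟩
      have hg : lt Q x0 ≠ 0 → ga i = false := by
        intro h
        by_contra hcon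
        exact h (lt_zero.2 (hga x0 hall (by simpa using hcon)))
      by_cases ho : openAt Q i
      · rw [stC_four hL hR ho]
        obtain ⟨x, y, h3, h4, h5⟩ := ho
        rcases fin3 (lt Q x0) with hl | hl | hl
        · rw [hl, stC_four hL' hR' ⟨x, y, by omega, wit_S (i := x0) h3 h4 h5 hl, h5⟩]
          rfl
        · rw [hl, stC_four hL' hR' (open_of_one (i := x0) hl)]
          simp [trC, hg (by rw [hl]; decide)]
        · rw [hl, stC_three hL' hR' (not_open_of_two (i := x0) hQ hl)]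
          simp [trC, hg (by rw [hl]; decide)]
      · rw [stC_three hL hR ho]
        rcases fin3 (lt Q x0) with hl | hl | hl
        · rw [hl, stC_three hL' hR' (closed_S (i := x0) ho hl)]
          rfl
        · rw [hl, stC_four hL' hR' (open_of_one (i := x0) hl)]
          simp [trC, hg (by rw [hl]; decide)]
        · exact (closed_X (i := x0) ho hl).elim
  · by_cases hC : Q c0 x0
    · -- the first element of the marked class
      have hmin : ∀ c, Q c0 c → x0 ≤ c := by
        intro c hc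
        by_contra hcon
        exact hL ⟨c, not_le.1 hcon, hc⟩
      have hns : x0 ∉ sing Q := by
        rw [not_mem_sing]
        by_cases h3 : x0 = c0
        · obtain ⟨c, h4, h5⟩ := h2
          exact ⟨c, by rw [h3]; exact h4, by rw [h3]; exact h5⟩
        · exact ⟨c0, Q.symm' hC, fun h => h3 h.symm⟩
      have hl : lt Q x0 = 1 := by
        obtain ⟨y, h3, h4⟩ := not_mem_sing.1 hns
        exact lt_one.2 ⟨y, lt_of_le_of_ne (hmin y (Q.trans' hC h3)) (Ne.symm h4), h3⟩
      have ho : ¬ openAt Q i := by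
        rintro ⟨x, y, h3, h4, h5⟩
        have := mem_of_hull (i := x0) hQ h3 h4 h5 (by rw [hl]; decide)
        exact hL ⟨x, h3, Q.trans' hC (Q.symm' this)⟩
      obtain ⟨y', h10, h11⟩ := lt_one.1 hl
      rw [stC_zero hL ho, hl, stC_two ⟨x0, by omega, hC⟩ ⟨y', h10, Q.trans' hC h11⟩]
      have h3 := hop x0 hC hmin
      have h4 := hbe x0 hC
      simp only [hv] at h3 h4
      simp [trC, h3, h4]
    · -- before the marked class
      have hL' : ¬ ∃ c : Fin N, c.val < i + 1 ∧ Q c0 c := by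
        rintro ⟨c, h, h'⟩
        rcases Nat.lt_succ_iff_lt_or_eq.1 h with h8 | h8
        · exact hL ⟨c, h8, h'⟩
        · have : c = x0 := Fin.ext h8
          subst this
          exact hC h'
      have hall : ∀ c, Q c0 c → x0 < c := by
        intro c hc
        by_contra hcon
        exact hL' ⟨c, by have := not_lt.1 hcon; have : (c : ℕ) ≤ i := this; omega, hc⟩
      have hg : lt Q x0 ≠ 0 → al i = false := by
        intro h
        by_contra hcon
        exact h (lt_zero.2 (hal x0 hall (by simpa using hcon)))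
      by_cases ho : openAt Q i
      · rw [stC_one hL ho]
        obtain ⟨x, y, h3, h4, h5⟩ := ho
        rcases fin3 (lt Q x0) with hl | hl | hl
        · rw [hl, stC_one hL' ⟨x, y, by omega, wit_S (i := x0) h3 h4 h5 hl, h5⟩]
          rfl
        · rw [hl, stC_one hL' (open_of_one (i := x0) hl)]
          simp [trC, hg (by rw [hl]; decide)]
        · rw [hl, stC_zero hL' (not_open_of_two (i := x0) hQ hl)]
          simp [trC, hg (by rw [hl]; decide)]
      · rw [stC_zero hL ho]
        rcases fin3 (lt Q x0) with hl | hl | hl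
        · rw [hl, stC_zero hL' (closed_S (i := x0) ho hl)]
          rfl
        · rw [hl, stC_one hL' (open_of_one (i := x0) hl)]
          simp [trC, hg (by rw [hl]; decide)]
        · exact (closed_X (i := x0) ho hl).elim

end Pool.Agent.N444.Phy
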