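import Pool.Agent.N444.Phy.Open

/-!
# The automaton of the pure partitions
-/

set_option autoImplicit false

namespace Pool.Agent.N444.Phy
open Pool.Agent.R935.Phylo Finset

variable {N : ℕ}

theorem fin3 (a : Fin 3) : a = 0 ∨ a = 1 ∨ a = 2 := by
  revert a; decide

/-- transitions: state `0` closed, `1` a class of the first kind open, `2` one of the second kind
open. -/
def trI (okY okZ : ℕ → Bool) (i : ℕ) (s : Fin 3) (a : Fin 3) (s' : Fin 3) : Bool :=
  match s, a, s' with
  | 0, 0, 0 => true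
  | 0, 1, 1 => okY i
  | 0, 1, 2 => okZ i
  | 1, 0, 1 => true
  | 1, 1, 1 => okY i
  | 1, 2, 0 => okY i
  | 2, 0, 2 => true
  | 2, 1, 2 => okZ i
  | 2, 2, 0 => okZ i
  | _, _, _ => false

/-- the class of `x` contains an element which is not allowed in the first kind. -/
def Tz (okY : ℕ → Bool) (Q : Setoid (Fin N)) (x : Fin N) : Prop := ∃ z, Q x z ∧ okY z = false

/-- a class of the second kind is open. -/
def TW (okY : ℕ → Bool) (Q : Setoid (Fin N)) (i : ℕ) : Prop :=
  ∃ x y : Fin N, x.val < i ∧ i ≤ y.val ∧ Q x y ∧ Tz okY Q x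

open Classical in
noncomputable def stI (okY : ℕ → Bool) (Q : Setoid (Fin N)) (i : ℕ) : Fin 3 :=
  if TW okY Q i then 2 else if openAt Q i then 1 else 0

theorem stI_two {okY : ℕ → Bool} {Q : Setoid (Fin N)} {i : ℕ} (h : TW okY Q i) :
    stI okY Q i = 2 := by
  unfold stI; rw [if_pos h]

theorem stI_one {okY : ℕ → Bool} {Q : Setoid (Fin N)} {i : ℕ} (h : ¬ TW okY Q i)
    (h' : openAt Q i) : stI okY Q i = 1 := by
  unfold stI; rw [if_neg h, if_pos h']

theorem stI_zero {okY : ℕ → Bool} {Q : Setoid (Fin N)} {i : ℕ} (h' : ¬ openAt Q i) :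
    stI okY Q i = 0 := by
  unfold stI
  rw [if_neg, if_neg h']
  rintro ⟨x, y, h1, h2, h3, -⟩
  exact h' ⟨x, y, h1, h2, h3⟩

theorem Tz_congr {okY : ℕ → Bool} {Q : Setoid (Fin N)} {x y : Fin N} (h : Q x y)
    (hx : Tz okY Q x) : Tz okY Q y := by
  obtain ⟨z, h1, h2⟩ := hx
  exact ⟨z, Q.trans' (Q.symm' h) h1, h2⟩

theorem validI {okY okZ : ℕ → Bool} {Q : Setoid (Fin N)} (hQ : Conv 1 Q)
    (hp : ∀ x : Fin N, Tz okY Q x → okZ x = true) (i : ℕ) (hi : i < N) :
    trI okY okZ i (stI okY Q i) (lt Q ⟨i, hi⟩) (stI okY Q (i + 1)) = true := by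
  set x0 : Fin N := ⟨i, hi⟩ with hx0
  have hv : (x0 : ℕ) = i := rfl
  by_cases ho : openAt Q i
  · by_cases ht : TW okY Q i
    · obtain ⟨x, y, h1, h2, h3, h4⟩ := ht
      rw [stI_two ⟨x, y, h1, h2, h3, h4⟩]
      rcases fin3 (lt Q x0) with hl | hl | hl
      · rw [hl]
        rw [stI_two (i := i + 1) ⟨x, y, by omega, wit_S (i := x0) h1 h2 h3 hl, h3, h4⟩]
        rfl
      · rw [hl]
        have h5 := mem_of_hull (i := x0) hQ h1 h2 h3 (by rw [hl]; decide)
        obtain ⟨y', h6, h7⟩ := lt_one.1 hl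
        rw [stI_two (i := i + 1) ⟨x, y', by omega, h6, Q.trans' h5 h7, h4⟩]
        exact hp x0 (Tz_congr h5 h4)
      · rw [hl]
        have h5 := mem_of_hull (i := x0) hQ h1 h2 h3 (by rw [hl]; decide)
        rw [stI_zero (i := i + 1) (not_open_of_two (i := x0) hQ hl)]
        exact hp x0 (Tz_congr h5 h4)
    · rw [stI_one ht ho]
      obtain ⟨x, y, h1, h2, h3⟩ := ho
      rcases fin3 (lt Q x0) with hl | hl | hl
      · rw [hl]
        rw [stI_one (i := i + 1) _ ⟨x, y, by omega, wit_S (i := x0) h1 h2 h3 hl, h3⟩]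
        · rfl
        · rintro ⟨x', y', h4, h5, h6, h7⟩
          rcases Nat.lt_succ_iff_lt_or_eq.1 h4 with h8 | h8
          · exact ht ⟨x', y', h8, by omega, h6, h7⟩
          · have : x' = x0 := Fin.ext h8
            subst this
            have := mem_sing.1 (lt_zero.1 hl) y' h6
            subst this
            omega
      · rw [hl]
        have h5 := mem_of_hull (i := x0) hQ h1 h2 h3 (by rw [hl]; decide)
        have h6 : ¬ Tz okY Q x := fun h => ht ⟨x, y, h1, h2, h3, h⟩
        rw [stI_one (i := i + 1) _ (open_of_one (i := x0) hl)]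
        · by_contra hcon
          apply h6
          exact ⟨x0, h5, by simpa [trI] using hcon⟩
        · rintro ⟨x', y', h4, h5', h6', h7⟩
          rcases Nat.lt_succ_iff_lt_or_eq.1 h4 with h8 | h8
          · exact ht ⟨x', y', h8, by omega, h6', h7⟩
          · have : x' = x0 := Fin.ext h8
            subst this
            exact h6 (Tz_congr (Q.symm' h5) h7)
      · rw [hl]
        have h5 := mem_of_hull (i := x0) hQ h1 h2 h3 (by rw [hl]; decide)
        have h6 : ¬ Tz okY Q x := fun h => ht ⟨x, y, h1, h2, h3, h⟩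
        rw [stI_zero (i := i + 1) (not_open_of_two (i := x0) hQ hl)]
        by_contra hcon
        apply h6
        exact ⟨x0, h5, by simpa [trI] using hcon⟩
  · rw [stI_zero ho]
    rcases fin3 (lt Q x0) with hl | hl | hl
    · rw [hl, stI_zero (i := i + 1) (closed_S (i := x0) ho hl)]
      rfl
    · rw [hl]
      by_cases h6 : Tz okY Q x0
      · obtain ⟨y', h7, h8⟩ := lt_one.1 hl
        rw [stI_two (i := i + 1) ⟨x0, y', by omega, h7, h8, h6⟩]
        exact hp x0 h6
      · rw [stI_one (i := i + 1) _ (open_of_one (i := x0) hl)]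
        · by_contra hcon
          apply h6
          exact ⟨x0, Q.refl' _, by simpa [trI] using hcon⟩
        · rintro ⟨x', y', h4, h5', h6', h7⟩
          rcases Nat.lt_succ_iff_lt_or_eq.1 h4 with h8 | h8
          · exact ho ⟨x', y', h8, by omega, h6'⟩
          · have : x' = x0 := Fin.ext h8
            subst this
            exact h6 h7
    · exact (closed_X (i := x0) ho hl).elim

end Pool.Agent.N444.Phy
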