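import Pool.Agent.N444.Phy.NumC

/-!
# The common partition counts of the two caterpillars are not unimodal
-/

set_option autoImplicit false
set_option maxRecDepth 100000

namespace Pool.Agent.N444.Phy
open Pool.Agent.R935.Phylo Finset
open scoped Nat

theorem numI : runI (440 + 2) 0 1 0 0 < 2 ^ 184 * 2 ^ 429 := by decide +kernel

theorem numA : runC (fun i => decide (kd i = 1)) (fun i => decide (kd i = 2))
    (fun i => decide (kd i = 0)) (fun _ => true) (fun i => decide (220 ≤ i))
    (440 + 2) 0 1 0 0 0 0 < 2 ^ 400 := by decide +kernel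

theorem numB : runC (fun i => decide (kd i = 2)) (fun i => decide (kd i = 0))
    (fun i => decide (kd i = 1)) (fun i => decide (i < 220)) (fun _ => true)
    (440 + 2) 0 1 0 0 0 0 < 2 ^ 400 := by decide +kernel

open Classical in
theorem XI : #((Fam 258).filter fun Q => ¬ HasY 0 Q ∧ ¬ HasY 2 Q) < 2 ^ 429 := by
  have h1 := card_I 258 2 1
  have h2 := runI_eq (440 + 2) 0
  have e0 : V (trI okY okZ) 0 (![1, 2, 1]) 0 0 = 1 := rfl
  have e1 : V (trI okY okZ) 0 (![1, 2, 1]) 0 1 = 0 := rfl
  have e2 : V (trI okY okZ) 0 (![1, 2, 1]) 0 2 = 0 := rfl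
  rw [e0, e1, e2, zero_add] at h2
  rw [← h2] at h1
  have h3 := lt_of_le_of_lt h1 numI
  have e3 : (1 : ℕ) ^ 258 * 2 ^ (440 + 2 - 258) = 2 ^ 184 := by rw [one_pow, one_mul]
  rw [e3, mul_comm] at h3
  exact Nat.lt_of_mul_lt_mul_left h3

open Classical in
theorem XA : #((Fam 258).filter fun Q => ¬ HasLR Q ∧ HasY 0 Q) < 2 ^ 400 := by
  have h1 := card_A 258 1 1
  have h2 := runC_eq (fun i => decide (kd i = 1)) (fun i => decide (kd i = 2))
    (fun i => decide (kd i = 0)) (fun _ => true) (fun i => decide (220 ≤ i)) (440 + 2) 0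
  rw [zero_add] at h2
  have h3 : V trA 0 (![1, 1, 1]) (440 + 2) 3 < 2 ^ 400 := by
    have h4 : V trA 0 (![1, 1, 1]) (440 + 2) 3 = _ := h2.symm
    rw [h4]
    exact numA
  rw [one_pow, one_pow, one_mul, mul_one] at h1
  exact lt_of_le_of_lt h1 h3

open Classical in
theorem XB : #((Fam 258).filter fun Q => ¬ HasLR Q ∧ HasY 2 Q) < 2 ^ 400 := by
  have h1 := card_B 258 1 1
  have h2 := runC_eq (fun i => decide (kd i = 2)) (fun i => decide (kd i = 0))
    (fun i => decide (kd i = 1)) (fun i => decide (i < 220)) (fun _ => true) (440 + 2) 0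
  rw [zero_add] at h2
  have h3 : V trB 0 (![1, 1, 1]) (440 + 2) 3 < 2 ^ 400 := by
    have h4 : V trB 0 (![1, 1, 1]) (440 + 2) 3 = _ := h2.symm
    rw [h4]
    exact numB
  rw [one_pow, one_pow, one_mul, mul_one] at h1
  exact lt_of_le_of_lt h1 h3

theorem c1 : (440 + 2).choose 257 < 2 ^ 429 := by
  rw [Nat.choose_eq_factorial_div_factorial (by norm_num)]
  decide +kernel

theorem c2 : (440).choose 256 < 2 ^ 428 := by
  rw [Nat.choose_eq_factorial_div_factorial (by norm_num)]
  decide +kernel

theorem c3 : 2 ^ 435 < (440).choose 220 := by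
  rw [Nat.choose_eq_factorial_div_factorial (by norm_num)]
  decide +kernel

theorem c4 : 2 ^ 437 + (440 + 2).choose (440 + 2 - 143 - 1) < (320 + 143 - 1).choose (2 * 143) := by
  rw [Nat.choose_eq_factorial_div_factorial (by norm_num),
    Nat.choose_eq_factorial_div_factorial (by norm_num)]
  decide +kernel

/-- the valley. -/
theorem valley : common TT FF 258 < 2 ^ 431 := by
  rw [common_eq]
  have h := card_Fam_le 258 (by norm_num)
  have h1 := XI
  have h2 := XA
  have h3 := XB
  have h4 := c1
  have h5 := c2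
  have e1 : 258 - 1 = 257 := rfl
  have e2 : 258 - 2 = 256 := rfl
  rw [e1, e2] at h
  have h6 : 2 ^ 429 + 2 ^ 428 + 2 ^ 429 + 2 ^ 400 + 2 ^ 400 < 2 ^ 431 := by decide +kernel
  omega

theorem NT_le (k : ℕ) : commonNT TT FF k ≤ common TT FF k := by
  classical
  rw [common_eq, commonNT_eq]
  exact card_le_card (filter_subset _ _)

/-- the right peak. -/
theorem peak_right : 2 ^ 435 < commonNT TT FF 222 :=
  lt_of_lt_of_le c3 (lower_right 220 (by norm_num))

/-- the positions of the leaves of kind `1`. -/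
def ksY : List Bool := (List.range (440 + 2)).map fun i => decide (kd i = 1)

theorem ksY_count : ksY.count true = 320 := by decide +kernel

/-- the left peak. -/
theorem peak_left : 2 ^ 437 < commonNT TT FF 299 := by
  have h := lower_left ksY (by simp [ksY]) (by
    intro x hx
    unfold ksY at hx
    rw [List.getD_eq_getElem _ _ (by simp)] at hx
    simpa using hx) 143 (by norm_num)
  rw [ksY_count] at h
  have h1 := c4
  have h2 : (440 + 2) - 143 = 299 := rfl
  rw [h2] at h h1
  omega

/-- A finite sequence `a 1, ..., a n` is unimodal. -/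
def Unimodal (a : ℕ → ℕ) (n : ℕ) : Prop :=
  ∃ m, 1 ≤ m ∧ m ≤ n ∧ (∀ k, 1 ≤ k → k < m → a k ≤ a (k + 1)) ∧
    (∀ k, m ≤ k → k < n → a (k + 1) ≤ a k)

theorem not_unimodal {a : ℕ → ℕ} {n x y z : ℕ} (hx : 1 ≤ x) (hxy : x < y) (hyz : y < z)
    (hz : z ≤ n) (h1 : a y < a x) (h2 : a y < a z) : ¬ Unimodal a n := by
  rintro ⟨m, -, -, hup, hdown⟩
  by_cases h : y ≤ m
  · have key : ∀ d, x + d ≤ m → a x ≤ a (x + d) := by
      intro d
      induction d with
      | zero => intro _; exact le_rfl
      | succ d ih =>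
        intro hd
        exact (ih (by omega)).trans (hup (x + d) (by omega) (by omega))
    have := key (y - x) (by omega)
    rw [show x + (y - x) = y by omega] at this
    omega
  · have key : ∀ d, y + d ≤ n → a (y + d) ≤ a y := by
      intro d
      induction d with
      | zero => intro _; exact le_rfl
      | succ d ih =>
        intro hd
        exact (hdown (y + d) (by omega) (by omega)).trans (ih (by omega))
    have := key (z - y) (by omega)
    rw [show y + (z - y) = z by omega] at this
    omega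

theorem all_not : ¬ Unimodal (common TT FF) (440 + 2) := by
  have h1 := valley
  have h2 := lt_of_lt_of_le peak_right (NT_le 222)
  have h3 := lt_of_lt_of_le peak_left (NT_le 299)
  have h4 : (2 : ℕ) ^ 431 < 2 ^ 435 := Nat.pow_lt_pow_right (by norm_num) (by norm_num)
  have h5 : (2 : ℕ) ^ 431 < 2 ^ 437 := Nat.pow_lt_pow_right (by norm_num) (by norm_num)
  exact not_unimodal (x := 222) (y := 258) (z := 299) (by norm_num) (by norm_num) (by norm_num)
    (by norm_num) (h1.trans (h4.trans h2)) (h1.trans (h5.trans h3))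

theorem NT_not : ¬ Unimodal (commonNT TT FF) (440 + 2) := by
  have h1 := lt_of_le_of_lt (NT_le 258) valley
  have h4 : (2 : ℕ) ^ 431 < 2 ^ 435 := Nat.pow_lt_pow_right (by norm_num) (by norm_num)
  have h5 : (2 : ℕ) ^ 431 < 2 ^ 437 := Nat.pow_lt_pow_right (by norm_num) (by norm_num)
  exact not_unimodal (x := 222) (y := 258) (z := 299) (by norm_num) (by norm_num) (by norm_num)
    (by norm_num) (h1.trans (h4.trans peak_right)) (h1.trans (h5.trans peak_left))

end Pool.Agent.N444.Phy
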