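import Pool.Agent.R935.Phylo.Bounds

/-!
# Counting convex partitions by annotated words

A convex partition of `Fin N` is coded by its word of letters `0` (singleton), `1` (not the
maximum of its class), `2` (maximum of a non-singleton class).  If the words of a family run
through a nondeterministic weighted automaton, the total weight of the automaton bounds the
size of the family.
-/

set_option autoImplicit false

namespace Pool.Agent.N444.Phy
open Pool.Agent.R935.Phylo Finset

section gen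
variable {σ : Type} [Fintype σ] [DecidableEq σ]
variable (tr : ℕ → σ → Fin 3 → σ → Bool) (s0 : σ) (wt : Fin 3 → ℕ)

/-- annotated words of the automaton. -/
def pathsTo : ℕ → σ → Finset (List (Fin 3 × σ))
  | 0, s => if s = s0 then {[]} else ∅
  | i + 1, s' => (univ : Finset (σ × Fin 3)).biUnion fun u =>
      if tr i u.1 u.2 s' then (pathsTo i u.1).image (fun l => (u.2, u.1) :: l) else ∅

/-- total weight. -/
def V : ℕ → σ → ℕ
  | 0, s => if s = s0 then 1 else 0
  | i + 1, s' => ∑ u : σ × Fin 3, if tr i u.1 u.2 s' then wt u.2 * V i u.1 else 0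

/-- weight of an annotated word. -/
def lw (l : List (Fin 3 × σ)) : ℕ := (l.map (fun a => wt a.1)).prod

theorem sum_paths_le (i : ℕ) (s : σ) :
    ∑ l ∈ pathsTo tr s0 i s, lw wt l ≤ V tr s0 wt i s := by
  induction i generalizing s with
  | zero =>
    unfold pathsTo V
    split_ifs <;> simp [lw]
  | succ i ih =>
    unfold pathsTo V
    rw [sum_biUnion]
    · apply sum_le_sum
      intro u _
      by_cases h : tr i u.1 u.2 s = true
      · rw [if_pos h, if_pos h, sum_image (by
          intro a _ b _ hab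
          exact (List.cons.inj hab).2)]
        simp only [lw, List.map_cons, List.prod_cons]
        rw [← mul_sum]
        exact Nat.mul_le_mul_left _ (ih _)
      · rw [if_neg h, if_neg h]
        simp
    · intro u _ v _ huv
      rw [Function.onFun, Finset.disjoint_left]
      intro l h1 h2
      apply huv
      have h3 : ∃ l', l = (u.2, u.1) :: l' := by
        split_ifs at h1
        · obtain ⟨l', -, h⟩ := mem_image.1 h1
          exact ⟨l', h.symm⟩
        · simp at h1
      have h4 : ∃ l', l = (v.2, v.1) :: l' := by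
        split_ifs at h2
        · obtain ⟨l', -, h⟩ := mem_image.1 h2
          exact ⟨l', h.symm⟩
        · simp at h2
      obtain ⟨a, h3⟩ := h3
      obtain ⟨b, h4⟩ := h4
      rw [h3] at h4
      have := (List.cons.inj h4).1
      simp only [Prod.mk.injEq] at this
      exact Prod.ext this.2 this.1

end gen

section letters
variable {N : ℕ}

open Classical in
/-- the letter of `x`. -/
noncomputable def lt (Q : Setoid (Fin N)) (x : Fin N) : Fin 3 :=
  if x ∈ sing Q then 0 else if (∀ y, Q x y → y ≤ x) then 2 else 1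

theorem lt_zero {Q : Setoid (Fin N)} {x : Fin N} : lt Q x = 0 ↔ x ∈ sing Q := by
  unfold lt
  split_ifs <;> simp_all

theorem lt_two {Q : Setoid (Fin N)} {x : Fin N} :
    lt Q x = 2 ↔ x ∉ sing Q ∧ ∀ y, Q x y → y ≤ x := by
  unfold lt
  split_ifs <;> simp_all

theorem lt_one {Q : Setoid (Fin N)} {x : Fin N} :
    lt Q x = 1 ↔ ∃ y, x < y ∧ Q x y := by
  unfold lt
  split_ifs with h1 h2
  · simp only [zero_ne_one, false_iff]
    rintro ⟨y, h3, h4⟩
    exact absurd (mem_sing.1 h1 y h4) h3.ne'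
  · simp only [Fin.reduceEq, false_iff]
    rintro ⟨y, h3, h4⟩
    exact absurd (h2 y h4) (not_le.2 h3)
  · push Not at h2
    obtain ⟨y, h3, h4⟩ := h2
    simp only [true_iff]
    exact ⟨y, h4, h3⟩

/-- the letters determine a convex partition. -/
theorem eq_of_lt {Q Q' : Setoid (Fin N)} (h : Conv 1 Q) (h' : Conv 1 Q')
    (hl : ∀ x, lt Q x = lt Q' x) : Q = Q' := by
  have h1 : sing Q = sing Q' := by
    ext x
    rw [← lt_zero, ← lt_zero, hl]
  have h2 : ends Q = ends Q' := by
    ext x
    rw [mem_ends, mem_ends, ← and_assoc, ← and_assoc, ← lt_two, ← lt_two, hl, h1]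
  rw [recover Q h, recover Q' h', h1, h2]

/-- the letters, extended to all natural numbers. -/
noncomputable def ltN (Q : Setoid (Fin N)) (i : ℕ) : Fin 3 := if h : i < N then lt Q ⟨i, h⟩ else 0

open Classical in
theorem prod_wt (Q : Setoid (Fin N)) (p q : ℕ) :
    ∏ x : Fin N, (![q, p, q] (lt Q x)) = q ^ Nat.card (Quotient Q) *
      p ^ (N - Nat.card (Quotient Q)) := by
  have h : ∀ x : Fin N, (![q, p, q] (lt Q x)) = if (∀ y, Q x y → y ≤ x) then q else p := by
    intro x
    by_cases h1 : ∀ y, Q x y → y ≤ x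
    · rw [if_pos h1]
      by_cases h2 : x ∈ sing Q
      · rw [lt_zero.2 h2]; rfl
      · rw [lt_two.2 ⟨h2, h1⟩]; rfl
    · rw [if_neg h1]
      push Not at h1
      obtain ⟨y, h3, h4⟩ := h1
      rw [lt_one.2 ⟨y, h4, h3⟩]; rfl
  rw [prod_congr rfl (fun x _ => h x), prod_ite, prod_const, prod_const, ← card_quot]
  congr 2
  have h2 := card_filter_add_card_filter_not (s := (univ : Finset (Fin N)))
    (fun x => ∀ y, Q x y → y ≤ x)
  rw [← card_quot, card_univ, Fintype.card_fin] at h2
  omega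

end letters

section fam
variable {σ : Type} [Fintype σ] [DecidableEq σ] {N : ℕ}

/-- the annotated word of `Q`. -/
noncomputable def wd (st : Setoid (Fin N) → ℕ → σ) (Q : Setoid (Fin N)) :
    ℕ → List (Fin 3 × σ)
  | 0 => []
  | i + 1 => (ltN Q i, st Q i) :: wd st Q i

theorem wd_mem (tr : ℕ → σ → Fin 3 → σ → Bool) (s0 : σ) (st : Setoid (Fin N) → ℕ → σ)
    (Q : Setoid (Fin N)) (h0 : st Q 0 = s0)
    (h : ∀ i (hi : i < N), tr i (st Q i) (lt Q ⟨i, hi⟩) (st Q (i + 1)) = true) (i : ℕ)
    (hi : i ≤ N) : wd st Q i ∈ pathsTo tr s0 i (st Q i) := by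
  induction i with
  | zero => simp [wd, pathsTo, h0]
  | succ i ih =>
    unfold pathsTo wd
    rw [mem_biUnion]
    refine ⟨(st Q i, ltN Q i), mem_univ _, ?_⟩
    have h1 := h i (by omega)
    have h2 : ltN Q i = lt Q ⟨i, by omega⟩ := by
      unfold ltN
      rw [dif_pos]
    simp only [h2]
    rw [if_pos h1]
    exact mem_image.2 ⟨_, ih (by omega), rfl⟩

theorem wd_inj (st : Setoid (Fin N) → ℕ → σ) (Q Q' : Setoid (Fin N)) (i : ℕ)
    (h : wd st Q i = wd st Q' i) : ∀ t < i, ltN Q t = ltN Q' t := by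
  induction i with
  | zero => intro t ht; omega
  | succ i ih =>
    unfold wd at h
    obtain ⟨h1, h2⟩ := List.cons.inj h
    intro t ht
    rcases Nat.lt_succ_iff_lt_or_eq.1 ht with h3 | h3
    · exact ih h2 t h3
    · subst h3
      exact (Prod.mk.inj h1).1

theorem lw_wd (wt : Fin 3 → ℕ) (st : Setoid (Fin N) → ℕ → σ) (Q : Setoid (Fin N)) (i : ℕ) :
    lw wt (wd st Q i) = ∏ t ∈ range i, wt (ltN Q t) := by
  induction i with
  | zero => simp [lw, wd]
  | succ i ih =>
    rw [prod_range_succ, ← ih]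
    simp only [lw, wd, List.map_cons, List.prod_cons]
    ring

theorem lw_wd_all (p q : ℕ) (st : Setoid (Fin N) → ℕ → σ) (Q : Setoid (Fin N)) :
    lw (![q, p, q]) (wd st Q N) = q ^ Nat.card (Quotient Q) *
      p ^ (N - Nat.card (Quotient Q)) := by
  rw [lw_wd, ← prod_wt, ← Fin.prod_univ_eq_prod_range (fun t => (![q, p, q]) (ltN Q t)) N]
  apply prod_congr rfl
  intro x _
  unfold ltN
  rw [dif_pos x.2]

/-- **The family bound.** -/
theorem fam_bound (tr : ℕ → σ → Fin 3 → σ → Bool) (s0 sf : σ) (st : Setoid (Fin N) → ℕ → σ)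
    (F : Finset (Setoid (Fin N))) (k p q : ℕ)
    (hc : ∀ Q ∈ F, Conv 1 Q) (hk : ∀ Q ∈ F, Nat.card (Quotient Q) = k)
    (h0 : ∀ Q ∈ F, st Q 0 = s0) (hf : ∀ Q ∈ F, st Q N = sf)
    (h : ∀ Q ∈ F, ∀ i (hi : i < N),
      tr i (st Q i) (lt Q ⟨i, hi⟩) (st Q (i + 1)) = true) :
    #F * (q ^ k * p ^ (N - k)) ≤ V tr s0 (![q, p, q]) N sf := by
  classical
  refine le_trans ?_ (sum_paths_le tr s0 (![q, p, q]) N sf)
  have h1 : F.image (fun Q => wd st Q N) ⊆ pathsTo tr s0 N sf := by
    intro l hl
    obtain ⟨Q, hQ, rfl⟩ := mem_image.1 hl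
    have := wd_mem tr s0 st Q (h0 Q hQ) (h Q hQ) N le_rfl
    rwa [hf Q hQ] at this
  refine le_trans ?_ (sum_le_sum_of_subset h1)
  rw [sum_image]
  · rw [← smul_eq_mul, ← sum_const]
    apply sum_le_sum
    intro Q hQ
    rw [lw_wd_all, hk Q hQ]
  · intro Q hQ Q' hQ' hQQ
    apply eq_of_lt (hc Q hQ) (hc Q' hQ')
    intro x
    have := wd_inj st Q Q' N hQQ x x.2
    unfold ltN at this
    rwa [dif_pos x.2, dif_pos x.2] at this

end fam

end Pool.Agent.N444.Phy
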