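import Pool.Agent.N444.Phy.AutC

/-!
# The two caterpillars and the classification of their common partitions
-/

set_option autoImplicit false

namespace Pool.Agent.N444.Phy
open Pool.Agent.R935.Phylo Finset

/-- the kind of a leaf: `0`, `1`, `2` or `3`. -/
def kd (i : ℕ) : ℕ :=
  if 440 ≤ i then 3 else if i % 11 % 4 = 1 then (if i < 220 then 2 else 0) else 1

/-- the position of a leaf in the second caterpillar is the rank of its key. -/
def key (i : ℕ) : ℕ := 1000 * kd i + i

theorem kd_lt (i : ℕ) : kd i < 4 := by unfold kd; split_ifs <;> omega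

theorem kd_zero {i : ℕ} (h : kd i = 0) : 220 ≤ i ∧ i < 440 := by
  unfold kd at h; split_ifs at h; omega

theorem kd_two {i : ℕ} (h : kd i = 2) : i < 220 := by
  unfold kd at h; split_ifs at h <;> omega

theorem kd_one {i : ℕ} (h : kd i = 1) : i < 440 := by
  unfold kd at h; split_ifs at h <;> omega

theorem kd_three {i : ℕ} : kd i = 3 ↔ 440 ≤ i := by
  constructor
  · intro h
    unfold kd at h; split_ifs at h <;> omega
  · intro h
    unfold kd; rw [if_pos h]

theorem key_inj {i j : ℕ} (hi : i < 442) (hj : j < 442) (h : key i = key j) : i = j := by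
  unfold key at h
  have := kd_lt i
  have := kd_lt j
  omega

theorem exists_perm {n : ℕ} (f : Fin n → ℕ) (hf : Function.Injective f) :
    ∃ σ : Equiv.Perm (Fin n), ∀ i j, σ i < σ j ↔ f i < f j := by
  classical
  have hlt : ∀ i : Fin n, #(univ.filter fun j => f j < f i) < n := by
    intro i
    have h1 : (univ.filter fun j => f j < f i) ⊂ (univ : Finset (Fin n)) := by
      rw [Finset.ssubset_iff_of_subset (subset_univ _)]
      exact ⟨i, mem_univ _, by simp⟩
    have := card_lt_card h1
    rwa [card_univ, Fintype.card_fin] at this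
  let g : Fin n → Fin n := fun i => ⟨_, hlt i⟩
  have hmono : ∀ i j, f i < f j → g i < g j := by
    intro i j hij
    have h1 : (univ.filter fun x => f x < f i) ⊂ (univ.filter fun x => f x < f j) := by
      rw [Finset.ssubset_iff_of_subset (by
        intro x hx
        simp only [mem_filter, mem_univ, true_and] at hx ⊢
        exact hx.trans hij)]
      exact ⟨i, by simpa using hij, by simp⟩
    exact card_lt_card h1
  have hiff : ∀ i j, g i < g j ↔ f i < f j := by
    intro i j
    refine ⟨fun h => ?_, hmono i j⟩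
    by_contra hcon
    rcases (not_lt.1 hcon).lt_or_eq with h1 | h1
    · exact lt_asymm h (hmono j i h1)
    · rw [hf h1] at h
      exact lt_irrefl _ h
  have hinj : Function.Injective g := by
    intro i j hij
    by_contra hne
    rcases lt_or_gt_of_ne (fun h => hne (hf h) : f i ≠ f j) with h1 | h1
    · exact (hmono i j h1).ne hij
    · exact (hmono j i h1).ne hij.symm
  refine ⟨Equiv.ofBijective g (Finite.injective_iff_bijective.1 hinj), ?_⟩
  intro i j
  exact hiff i j

theorem tau_exists : ∃ σ : Equiv.Perm (Fin (440 + 2)), ∀ i j, σ i < σ j ↔ key i < key j :=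
  exists_perm (fun i => key i) (fun i j h => Fin.ext (key_inj i.2 j.2 h))

/-- the leaf order of the second caterpillar. -/
noncomputable def tauK : Equiv.Perm (Fin (440 + 2)) := Classical.choose tau_exists

theorem tauK_lt (i j : Fin (440 + 2)) : tauK i < tauK j ↔ key i < key j :=
  Classical.choose_spec tau_exists i j

/-- convexity in the second caterpillar. -/
def CF (Q : Setoid (Fin (440 + 2))) : Prop :=
  ∀ i j l : Fin (440 + 2), key i < key l → key l < key j → Q i j → Q i l ∨ l ∈ sing Q

theorem CF_iff (Q : Setoid (Fin (440 + 2))) : Conv tauK Q ↔ CF Q := by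
  unfold Conv CF
  constructor
  · intro h i j l h1 h2 h3
    rcases h i j l ((tauK_lt _ _).2 h1) ((tauK_lt _ _).2 h2) h3 with h4 | h4
    · exact Or.inl h4
    · exact Or.inr (mem_sing.2 h4)
  · intro h i j l h1 h2 h3
    rcases h i j l ((tauK_lt _ _).1 h1) ((tauK_lt _ _).1 h2) h3 with h4 | h4
    · exact Or.inl h4
    · exact Or.inr (mem_sing.1 h4)

/-- the first caterpillar. -/
noncomputable def TT : PhyloTree (440 + 2) := cat 440 (by norm_num) 1
/-- the second caterpillar. -/
noncomputable def FF : PhyloTree (440 + 2) := cat 440 (by norm_num) tauK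

theorem induces_TT (Q : Setoid (Fin (440 + 2))) : TT.Induces Q ↔ Conv 1 Q := induces_iff _ _ _
theorem induces_FF (Q : Setoid (Fin (440 + 2))) : FF.Induces Q ↔ CF Q :=
  (induces_iff _ _ _).trans (CF_iff Q)

section
variable {Q : Setoid (Fin (440 + 2))}

/-- a class with a leaf of kind `0` and one of kind `2` makes everything else trivial. -/
theorem lr_trivial (hQ : Conv 1 Q) (hF : CF Q) {i j : Fin (440 + 2)} (hij : Q i j)
    (hi : kd i = 0) (hj : kd j = 2) (x : Fin (440 + 2)) (hx : kd x ≠ 3) :
    Q i x ∨ x ∈ sing Q := by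
  have h1 := kd_zero hi
  have h2 := kd_two hj
  have hji : Q j i := Q.symm' hij
  have main : ∀ (h : j < x) (h' : x < i), Q i x ∨ x ∈ sing Q := by
    intro h h'
    by_cases hs : x ∈ sing Q
    · exact Or.inr hs
    · exact Or.inl (Q.trans' hij (conv1 hQ h h' hji hs))
  have hlt := kd_lt x
  have hcases : kd x = 0 ∨ kd x = 1 ∨ kd x = 2 := by omega
  have hx442 := x.2
  have hi442 := i.2
  have hj442 := j.2
  rcases hcases with h | h | h
  · have h3 := kd_zero h
    rcases lt_trichotomy (x : ℕ) i with h4 | h4 | h4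
    · exact main (by rw [Fin.lt_def]; omega) h4
    · rw [Fin.ext h4]; exact Or.inl (Q.refl' _)
    · exact hF i j x (by unfold key; rw [hi, h]; omega) (by unfold key; rw [hj, h]; omega) hij
  · exact hF i j x (by unfold key; rw [hi, h]; omega) (by unfold key; rw [hj, h]; omega) hij
  · have h3 := kd_two h
    rcases lt_trichotomy (x : ℕ) j with h4 | h4 | h4
    · exact hF i j x (by unfold key; rw [hi, h]; omega) (by unfold key; rw [hj, h]; omega) hij
    · rw [Fin.ext h4]; exact Or.inl hij
    · exact main h4 (by rw [Fin.lt_def]; omega)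

/-- kinds allowed in a pure class of the first kind. -/
def okY (i : ℕ) : Bool := decide (kd i = 1 ∨ kd i = 3)
/-- kinds allowed in a pure class of the second kind. -/
def okZ (i : ℕ) : Bool := decide (kd i ≠ 1)

/-- some class contains leaves of the kinds `0` and `2`. -/
def HasLR (Q : Setoid (Fin (440 + 2))) : Prop :=
  ∃ i j : Fin (440 + 2), Q i j ∧ kd i = 0 ∧ kd j = 2

/-- some class contains leaves of the kinds `1` and `a`. -/
def HasY (a : ℕ) (Q : Setoid (Fin (440 + 2))) : Prop :=
  ∃ z : Fin (440 + 2), kd z = a ∧ ∃ y : Fin (440 + 2), kd y = 1 ∧ Q z y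

theorem pure_of (h0 : ¬ HasY 0 Q) (h2 : ¬ HasY 2 Q) (x : Fin (440 + 2)) (hx : Tz okY Q x) :
    okZ x = true := by
  obtain ⟨z, h3, h4⟩ := hx
  by_contra hcon
  have h5 : kd x = 1 := by
    by_contra h
    exact hcon (by unfold okZ; exact decide_eq_true h)
  have h6 : ¬ (kd z = 1 ∨ kd z = 3) := by
    unfold okY at h4
    exact of_decide_eq_false h4
  have h7 := kd_lt z
  have h8 : kd z = 0 ∨ kd z = 2 := by omega
  rcases h8 with h8 | h8
  · exact h0 ⟨z, h8, x, h5, Q.symm' h3⟩
  · exact h2 ⟨z, h8, x, h5, Q.symm' h3⟩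

open Classical in
/-- a chosen leaf of kind `a` in a class with a leaf of kind `1`. -/
noncomputable def c0 (a : ℕ) (Q : Setoid (Fin (440 + 2))) : Fin (440 + 2) :=
  if h : HasY a Q then Classical.choose h else 0

theorem c0_spec {a : ℕ} (h : HasY a Q) :
    kd (c0 a Q) = a ∧ ∃ y : Fin (440 + 2), kd y = 1 ∧ Q (c0 a Q) y := by
  unfold c0
  rw [dif_pos h]
  exact Classical.choose_spec h

def trA : ℕ → Fin 5 → Fin 3 → Fin 5 → Bool :=
  trC (fun i => decide (kd i = 1)) (fun i => decide (kd i = 2)) (fun i => decide (kd i = 0))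
    (fun _ => true) (fun i => decide (220 ≤ i))

def trB : ℕ → Fin 5 → Fin 3 → Fin 5 → Bool :=
  trC (fun i => decide (kd i = 2)) (fun i => decide (kd i = 0)) (fun i => decide (kd i = 1))
    (fun i => decide (i < 220)) (fun _ => true)

theorem validA (hQ : Conv 1 Q) (hF : CF Q) (hn : ¬ HasLR Q) (h : HasY 0 Q) (i : ℕ)
    (hi : i < 440 + 2) :
    trA i (stC (c0 0 Q) Q i) (lt Q ⟨i, hi⟩) (stC (c0 0 Q) Q (i + 1)) = true := by
  obtain ⟨h1, y, h2, h3⟩ := c0_spec h
  have hz := kd_zero h1
  have hy442 := y.2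
  apply validC hQ
  · refine ⟨y, h3, ?_⟩
    intro h4
    rw [h4, h1] at h2
    omega
  · intro x hx hk
    have hk' : kd x = 1 := of_decide_eq_true hk
    have h4 : x < y := hx y h3
    have h5 : (x : ℕ) < y := h4
    rcases hF (c0 0 Q) y x (by unfold key; rw [h1, hk']; omega)
      (by unfold key; rw [h2, hk']; omega) h3 with h6 | h6
    · exact absurd (hx x h6) (lt_irrefl _)
    · exact h6
  · intro x hx
    apply decide_eq_false
    intro hk
    exact hn ⟨c0 0 Q, x, hx, h1, hk⟩
  · intro x hx hk
    have hk' : kd x = 0 := of_decide_eq_true hk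
    have h4 : c0 0 Q < x := hx _ (Q.refl' _)
    have h5 : (c0 0 Q : ℕ) < x := h4
    have hx442 := x.2
    rcases hF (c0 0 Q) y x (by unfold key; rw [h1, hk']; omega)
      (by unfold key; rw [h2, hk']; omega) h3 with h6 | h6
    · exact absurd (hx x h6) (lt_irrefl _)
    · exact h6
  · intro x _ _
    rfl
  · intro x _ hx
    apply decide_eq_true
    have h4 : (c0 0 Q : ℕ) ≤ x := hx _ (Q.refl' _)
    omega

theorem validB (hQ : Conv 1 Q) (hF : CF Q) (hn : ¬ HasLR Q) (h : HasY 2 Q) (i : ℕ)
    (hi : i < 440 + 2) :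
    trB i (stC (c0 2 Q) Q i) (lt Q ⟨i, hi⟩) (stC (c0 2 Q) Q (i + 1)) = true := by
  obtain ⟨h1, y, h2, h3⟩ := c0_spec h
  have hz := kd_two h1
  have hy442 := y.2
  apply validC hQ
  · refine ⟨y, h3, ?_⟩
    intro h4
    rw [h4, h1] at h2
    omega
  · intro x hx hk
    have hk' : kd x = 2 := of_decide_eq_true hk
    have h4 : x < c0 2 Q := hx _ (Q.refl' _)
    have h5 : (x : ℕ) < c0 2 Q := h4
    rcases hF y (c0 2 Q) x (by unfold key; rw [h2, hk']; omega)
      (by unfold key; rw [h1, hk']; omega) (Q.symm' h3) with h6 | h6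
    · exact absurd (hx x (Q.trans' h3 h6)) (lt_irrefl _)
    · exact h6
  · intro x hx
    apply decide_eq_false
    intro hk
    exact hn ⟨x, c0 2 Q, Q.symm' hx, hk, h1⟩
  · intro x hx hk
    have hk' : kd x = 1 := of_decide_eq_true hk
    have h4 : y < x := hx _ h3
    have h5 : (y : ℕ) < x := h4
    have hx442 := x.2
    rcases hF y (c0 2 Q) x (by unfold key; rw [h2, hk']; omega)
      (by unfold key; rw [h1, hk']; omega) (Q.symm' h3) with h6 | h6
    · exact absurd (hx x (Q.trans' h3 h6)) (lt_irrefl _)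
    · exact h6
  · intro x _ hx
    apply decide_eq_true
    have h4 : (x : ℕ) ≤ c0 2 Q := hx _ (Q.refl' _)
    omega
  · intro x _ _
    rfl

end

end Pool.Agent.N444.Phy
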