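import Pool.Agent.N444.Phy.Upper

/-!
# Lower bounds for the number of common partitions
-/

set_option autoImplicit false

namespace Pool.Agent.N444.Phy
open Pool.Agent.R935.Phylo Finset

theorem common_eq (k : ℕ) : common TT FF k = #(Fam k) := by
  unfold common
  rw [← Set.ncard_coe_finset]
  congr 1
  ext Q
  rw [mem_coe, mem_Fam]
  show TT.Induces Q ∧ FF.Induces Q ∧ Nat.card (Quotient Q) = k ↔ _
  rw [induces_TT, induces_FF]

open Classical in
theorem commonNT_eq (k : ℕ) : commonNT TT FF k = #((Fam k).filter NonTrivial) := by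
  unfold commonNT
  rw [← Set.ncard_coe_finset]
  congr 1
  ext Q
  rw [mem_coe, mem_filter, mem_Fam]
  show TT.Induces Q ∧ FF.Induces Q ∧ Nat.card (Quotient Q) = k ∧ NonTrivial Q ↔ _
  rw [induces_TT, induces_FF]
  tauto

theorem conv1_R {N : ℕ} (S E : Finset (Fin N)) : Conv 1 (R S E) :=
  conv_R_of_fixed 1 (fun _ _ => rfl)

theorem sing_of_mem_R {N : ℕ} {S E : Finset (Fin N)} {x : Fin N} (h : x ∈ S) :
    x ∈ sing (R S E) := by
  rw [mem_sing]
  rintro y (h1 | ⟨h1, -⟩)
  · exact h1.symm
  · exact absurd h h1

theorem CF_RW (S : Finset (Fin (440 + 2))) : CF (R S {e439}) := by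
  intro i j l h1 h2 h3
  by_cases hl : l ∈ S
  · exact Or.inr (sing_of_mem_R hl)
  · left
    rcases mem_R.1 h3 with h4 | ⟨h4, h5, h6⟩
    · rw [h4] at h1
      omega
    · rw [mem_R]
      refine Or.inr ⟨h4, hl, ?_⟩
      have hi := i.2
      have hj := j.2
      have hl2 := l.2
      have hki := kd_lt i
      have hkj := kd_lt j
      have hkl := kd_lt l
      have e1 : kd i = 3 ↔ 440 ≤ (i : ℕ) := kd_three
      have e2 : kd j = 3 ↔ 440 ≤ (j : ℕ) := kd_three
      have e3 : kd l = 3 ↔ 440 ≤ (l : ℕ) := kd_three
      unfold key at h1 h2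
      constructor
      · intro h
        by_contra h7
        have h8 : kd i = 3 := e1.2 h
        have h9 : ¬ kd l = 3 := fun h => h7 (e3.1 h)
        omega
      · intro h
        by_contra h7
        have h8 : kd l = 3 := e3.2 h
        have h9 : ¬ kd j = 3 := fun h => h7 (h6.2 (e2.1 h))
        omega

theorem exists_two (S : Finset (Fin (440 + 2))) (h : #S + 2 ≤ 440) :
    ∃ a b : Fin (440 + 2), a ≠ b ∧ a ∉ S ∧ b ∉ S ∧ (a : ℕ) < 440 ∧ (b : ℕ) < 440 := by
  classical
  have h1 := le_card_sdiff S (univ.filter fun x : Fin (440 + 2) => (x : ℕ) < 440)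
  rw [card_lt440] at h1
  obtain ⟨a, ha, b, hb, hab⟩ := Finset.one_lt_card.1
    (show 1 < #((univ.filter fun x : Fin (440 + 2) => (x : ℕ) < 440) \ S) by omega)
  simp only [mem_sdiff, mem_filter, mem_univ, true_and] at ha hb
  exact ⟨a, b, hab, ha.2, hb.2, ha.1, hb.1⟩

open Classical in
theorem lower_right (s : ℕ) (hs : s + 2 ≤ 440) : (440).choose s ≤ commonNT TT FF (s + 2) := by
  rw [commonNT_eq]
  have h0 : (440).choose s = #(powersetCard s
      (univ.filter fun x : Fin (440 + 2) => (x : ℕ) < 440)) := by
    rw [card_powersetCard, card_lt440]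
  rw [h0]
  apply card_le_card_of_injOn (fun S => R S {e439})
  · intro S hS
    rw [mem_coe, mem_powersetCard] at hS
    have hS' : ∀ x ∈ S, (x : ℕ) < 440 := fun x hx => by simpa using hS.1 hx
    obtain ⟨a, b, hab, ha, hb, ha', hb'⟩ := exists_two S (by omega)
    have h1 := card_RW S hS' a b hab ha hb ha' hb'
    rw [mem_coe, mem_filter, mem_Fam]
    refine ⟨⟨conv1_R _ _, CF_RW S, by rw [h1, hS.2]⟩, ?_⟩
    have h440 : e440 ∉ S := fun h' => by
      have := hS' _ h'
      unfold e440 at this
      simp only at this
      omega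
    have h441 : e441 ∉ S := fun h' => by
      have := hS' _ h'
      unfold e441 at this
      simp only at this
      omega
    refine ⟨a, b, e440, e441, mem_R.2 (Or.inr ⟨ha, hb, by omega⟩), hab,
      mem_R.2 (Or.inr ⟨h440, h441, by unfold e440 e441; simp only; omega⟩), ?_, ?_⟩
    · intro h
      have := Fin.ext_iff.1 h
      unfold e440 e441 at this
      simp only at this
      omega
    · intro h
      rcases mem_R.1 h with h2 | ⟨-, -, h2⟩
      · rw [h2] at ha'
        unfold e440 at ha'
        simp only at ha'
        omega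
      · have : 440 ≤ (e440 : ℕ) := by unfold e440; simp
        have := h2.2 this
        omega
  · intro S hS T hT hST
    rw [mem_coe, mem_powersetCard] at hS hT
    have hS' : ∀ x ∈ S, (x : ℕ) < 440 := fun x hx => by simpa using hS.1 hx
    have hT' : ∀ x ∈ T, (x : ℕ) < 440 := fun x hx => by simpa using hT.1 hx
    obtain ⟨a, b, hab, ha, hb, ha', hb'⟩ := exists_two S (by omega)
    obtain ⟨c, d, hcd, hc, hd, hc', hd'⟩ := exists_two T (by omega)
    have h1 := sing_RW S hS' a b hab ha hb ha' hb'
    have h2 := sing_RW T hT' c d hcd hc hd hc' hd'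
    have h3 : R S {e439} = R T {e439} := hST
    rw [← h1, ← h2, h3]

/-! ### words -/

/-- accepted words: letters only at the positions marked `true`; the flag says whether a class is
open; the number counts the letters `1`. -/
def acc : List Bool → Bool → ℕ → Finset (List (Fin 3))
  | [], false, 0 => {[]}
  | [], false, _ + 1 => ∅
  | [], true, _ => ∅
  | false :: ks, o, j => (acc ks o j).image (fun l => 0 :: l)
  | true :: ks, false, 0 => (acc ks false 0).image (fun l => 0 :: l)
  | true :: ks, false, j + 1 => (acc ks false (j + 1)).image (fun l => 0 :: l) ∪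
      (acc ks true j).image (fun l => 1 :: l)
  | true :: ks, true, 0 => (acc ks true 0).image (fun l => 0 :: l) ∪
      (acc ks false 0).image (fun l => 2 :: l)
  | true :: ks, true, j + 1 => ((acc ks true (j + 1)).image (fun l => 0 :: l) ∪
      (acc ks true j).image (fun l => 1 :: l)) ∪ (acc ks false (j + 1)).image (fun l => 2 :: l)

theorem card_im (A : Finset (List (Fin 3))) (a : Fin 3) :
    #(A.image (fun l => a :: l)) = #A :=
  card_image_of_injective _ (fun x y h => (List.cons.inj h).2)

theorem disj_im (A B : Finset (List (Fin 3))) (a b : Fin 3) (h : a ≠ b) :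
    Disjoint (A.image (fun l => a :: l)) (B.image (fun l => b :: l)) := by
  rw [Finset.disjoint_left]
  intro l h1 h2
  obtain ⟨x, -, rfl⟩ := mem_image.1 h1
  obtain ⟨y, -, h3⟩ := mem_image.1 h2
  exact h (List.cons.inj h3).1.symm

theorem card_acc (ks : List Bool) : (∀ j, #(acc ks false j) = (ks.count true + j - 1).choose (2 * j)) ∧
    (∀ j, #(acc ks true j) = (ks.count true + j).choose (2 * j + 1)) := by
  induction ks with
  | nil =>
    constructor
    · intro j
      rcases j with _ | j
      · simp [acc]
      · rw [Nat.choose_eq_zero_of_lt (by simp; omega)]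
        simp [acc]
    · intro j
      rw [Nat.choose_eq_zero_of_lt (by simp; omega)]
      simp [acc]
  | cons a ks ih =>
    obtain ⟨ih1, ih2⟩ := ih
    cases a with
    | false =>
      have hc : (false :: ks).count true = ks.count true := by simp
      rw [hc]
      constructor
      · intro j
        unfold acc
        rw [card_im, ih1]
      · intro j
        unfold acc
        rw [card_im, ih2]
    | true =>
      have hc : (true :: ks).count true = ks.count true + 1 := by simp
      rw [hc]
      set b := ks.count true with hb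
      constructor
      · intro j
        rcases j with _ | j
        · unfold acc
          rw [card_im, ih1]
          simp
        · unfold acc
          rw [card_union_of_disjoint (disj_im _ _ _ _ (by decide)), card_im, card_im, ih1, ih2]
          have e1 : b + (j + 1) - 1 = b + j := by omega
          have e2 : b + 1 + (j + 1) - 1 = b + j + 1 := by omega
          have e3 : 2 * (j + 1) = 2 * j + 1 + 1 := by ring
          rw [e1, e2, e3, Nat.choose_succ_succ' (b + j) (2 * j + 1)]
          ring
      · intro j
        rcases j with _ | j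
        · unfold acc
          rw [card_union_of_disjoint (disj_im _ _ _ _ (by decide)), card_im, card_im, ih1, ih2]
          simp
        · unfold acc
          rw [card_union_of_disjoint, card_union_of_disjoint (disj_im _ _ _ _ (by decide)),
            card_im, card_im, card_im, ih1, ih2, ih2]
          · have e1 : b + (j + 1) - 1 = b + j := by omega
            have e2 : b + 1 + (j + 1) = b + j + 1 + 1 := by omega
            have e3 : 2 * (j + 1) + 1 = 2 * j + 1 + 1 + 1 := by ring
            have e4 : 2 * (j + 1) = 2 * j + 1 + 1 := by ring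
            have e5 : b + (j + 1) = b + j + 1 := by omega
            rw [e1, e2, e3, e4, e5, Nat.choose_succ_succ' (b + j + 1) (2 * j + 1 + 1),
              Nat.choose_succ_succ' (b + j) (2 * j + 1)]
            ring
          · rw [disjoint_union_left]
            exact ⟨disj_im _ _ _ _ (by decide), disj_im _ _ _ _ (by decide)⟩

/-- structure of the accepted words. -/
def Ok (o : Bool) (l : List (Fin 3)) : Prop :=
  (∀ i, l.getD i 0 = 1 → ∃ y, i < y ∧ l.getD y 0 ≠ 0 ∧ ∀ z, i < z → z < y → l.getD z 0 = 0) ∧
  (∀ i, l.getD i 0 = 2 → (∃ y, y < i ∧ l.getD y 0 = 1 ∧ ∀ z, y < z → z < i → l.getD z 0 = 0) ∨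
    (o = true ∧ ∀ z, z < i → l.getD z 0 = 0)) ∧
  (o = true → ∃ i, l.getD i 0 ≠ 0 ∧ ∀ z, z < i → l.getD z 0 = 0)

theorem ok_nil : Ok false [] := by
  refine ⟨?_, ?_, ?_⟩
  · intro i h; simp at h
  · intro i h; simp at h
  · intro h; simp at h

theorem ok_cons0 {o : Bool} {l : List (Fin 3)} (h : Ok o l) : Ok o (0 :: l) := by
  obtain ⟨h1, h2, h3⟩ := h
  refine ⟨?_, ?_, ?_⟩
  · intro i hi
    rcases i with _ | i
    · simp at hi
    · rw [List.getD_cons_succ] at hi
      obtain ⟨y, h4, h5, h6⟩ := h1 i hi
      refine ⟨y + 1, by omega, by rwa [List.getD_cons_succ], ?_⟩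
      intro z hz hz'
      rcases z with _ | z
      · omega
      · rw [List.getD_cons_succ]; exact h6 z (by omega) (by omega)
  · intro i hi
    rcases i with _ | i
    · simp at hi
    · rw [List.getD_cons_succ] at hi
      rcases h2 i hi with ⟨y, h4, h5, h6⟩ | ⟨h4, h5⟩
      · left
        refine ⟨y + 1, by omega, by rwa [List.getD_cons_succ], ?_⟩
        intro z hz hz'
        rcases z with _ | z
        · omega
        · rw [List.getD_cons_succ]; exact h6 z (by omega) (by omega)
      · right
        refine ⟨h4, ?_⟩
        intro z hz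
        rcases z with _ | z
        · rw [List.getD_cons_zero]
        · rw [List.getD_cons_succ]; exact h5 z (by omega)
  · intro ho
    obtain ⟨i, h4, h5⟩ := h3 ho
    refine ⟨i + 1, by rwa [List.getD_cons_succ], ?_⟩
    intro z hz
    rcases z with _ | z
    · rw [List.getD_cons_zero]
    · rw [List.getD_cons_succ]; exact h5 z (by omega)

theorem ok_cons1 {o : Bool} {l : List (Fin 3)} (h : Ok true l) : Ok o (1 :: l) := by
  obtain ⟨h1, h2, h3⟩ := h
  refine ⟨?_, ?_, ?_⟩
  · intro i hi
    rcases i with _ | i
    · obtain ⟨y, h4, h5⟩ := h3 rfl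
      refine ⟨y + 1, by omega, by rwa [List.getD_cons_succ], ?_⟩
      intro z hz hz'
      rcases z with _ | z
      · omega
      · rw [List.getD_cons_succ]; exact h5 z (by omega)
    · rw [List.getD_cons_succ] at hi
      obtain ⟨y, h4, h5, h6⟩ := h1 i hi
      refine ⟨y + 1, by omega, by rwa [List.getD_cons_succ], ?_⟩
      intro z hz hz'
      rcases z with _ | z
      · omega
      · rw [List.getD_cons_succ]; exact h6 z (by omega) (by omega)
  · intro i hi
    rcases i with _ | i
    · simp at hi
    · rw [List.getD_cons_succ] at hi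
      left
      rcases h2 i hi with ⟨y, h4, h5, h6⟩ | ⟨h4, h5⟩
      · refine ⟨y + 1, by omega, by rwa [List.getD_cons_succ], ?_⟩
        intro z hz hz'
        rcases z with _ | z
        · omega
        · rw [List.getD_cons_succ]; exact h6 z (by omega) (by omega)
      · refine ⟨0, by omega, by rw [List.getD_cons_zero], ?_⟩
        intro z hz hz'
        rcases z with _ | z
        · omega
        · rw [List.getD_cons_succ]; exact h5 z (by omega)
  · intro _
    refine ⟨0, by rw [List.getD_cons_zero]; decide, ?_⟩
    intro z hz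
    omega

theorem ok_cons2 {l : List (Fin 3)} (h : Ok false l) : Ok true (2 :: l) := by
  obtain ⟨h1, h2, h3⟩ := h
  refine ⟨?_, ?_, ?_⟩
  · intro i hi
    rcases i with _ | i
    · simp at hi
    · rw [List.getD_cons_succ] at hi
      obtain ⟨y, h4, h5, h6⟩ := h1 i hi
      refine ⟨y + 1, by omega, by rwa [List.getD_cons_succ], ?_⟩
      intro z hz hz'
      rcases z with _ | z
      · omega
      · rw [List.getD_cons_succ]; exact h6 z (by omega) (by omega)
  · intro i hi
    rcases i with _ | i
    · right
      exact ⟨rfl, fun z hz => by omega⟩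
    · rw [List.getD_cons_succ] at hi
      rcases h2 i hi with ⟨y, h4, h5, h6⟩ | ⟨h4, -⟩
      · left
        refine ⟨y + 1, by omega, by rwa [List.getD_cons_succ], ?_⟩
        intro z hz hz'
        rcases z with _ | z
        · omega
        · rw [List.getD_cons_succ]; exact h6 z (by omega) (by omega)
      · exact absurd h4 (by decide)
  · intro _
    refine ⟨0, by rw [List.getD_cons_zero]; decide, ?_⟩
    intro z hz
    omega

/-- everything we need about accepted words. -/
structure AccProp (ks : List Bool) (o : Bool) (j : ℕ) (l : List (Fin 3)) : Prop where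
  len : l.length = ks.length
  ok : Ok o l
  sup : ∀ i, l.getD i 0 ≠ 0 → ks.getD i false = true
  cnt : ∑ t ∈ range l.length, (if l.getD t 0 = 1 then 1 else 0) = j

theorem sup_cons {ks : List Bool} {l : List (Fin 3)} {a : Fin 3} {b : Bool}
    (h : ∀ i, l.getD i 0 ≠ 0 → ks.getD i false = true) (hab : a ≠ 0 → b = true) (i : ℕ)
    (hi : (a :: l).getD i 0 ≠ 0) : (b :: ks).getD i false = true := by
  rcases i with _ | i
  · rw [List.getD_cons_zero] at hi ⊢
    exact hab hi
  · rw [List.getD_cons_succ] at hi ⊢
    exact h i hi

theorem cnt_cons (l : List (Fin 3)) (a : Fin 3) :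
    ∑ t ∈ range (a :: l).length, (if (a :: l).getD t 0 = 1 then 1 else 0) =
      ∑ t ∈ range l.length, (if l.getD t 0 = 1 then 1 else 0) + (if a = 1 then 1 else 0) := by
  rw [List.length_cons, sum_range_succ']
  simp only [List.getD_cons_succ, List.getD_cons_zero]

theorem acc_prop (ks : List Bool) : ∀ o j, ∀ l ∈ acc ks o j, AccProp ks o j l := by
  induction ks with
  | nil =>
    intro o j l hl
    cases o with
    | true => simp [acc] at hl
    | false =>
      rcases j with _ | j
      · simp only [acc, mem_singleton] at hl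
        subst hl
        exact ⟨rfl, ok_nil, by intro i hi; simp at hi, by simp⟩
      · simp [acc] at hl
  | cons a ks ih =>
    have c0 : ∀ (b : Bool) o j l, l ∈ acc ks o j → AccProp (b :: ks) o j (0 :: l) := by
      intro b o j l hl
      obtain ⟨h1, h2, h3, h4⟩ := ih o j l hl
      refine ⟨by simp [h1], ok_cons0 h2, sup_cons h3 (fun h => absurd rfl h), ?_⟩
      rw [cnt_cons, h4]
      simp
    have c1 : ∀ o j l, l ∈ acc ks true j → AccProp (true :: ks) o (j + 1) (1 :: l) := by
      intro o j l hl
      obtain ⟨h1, h2, h3, h4⟩ := ih true j l hl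
      refine ⟨by simp [h1], ok_cons1 h2, sup_cons h3 (fun _ => rfl), ?_⟩
      rw [cnt_cons, h4]
      simp
    have c2 : ∀ j l, l ∈ acc ks false j → AccProp (true :: ks) true j (2 :: l) := by
      intro j l hl
      obtain ⟨h1, h2, h3, h4⟩ := ih false j l hl
      refine ⟨by simp [h1], ok_cons2 h2, sup_cons h3 (fun _ => rfl), ?_⟩
      rw [cnt_cons, h4]
      simp
    intro o j l hl
    cases a with
    | false =>
      unfold acc at hl
      obtain ⟨l', h1, rfl⟩ := mem_image.1 hl
      exact c0 _ _ _ _ h1
    | true =>
      cases o with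
      | false =>
        rcases j with _ | j
        · unfold acc at hl
          obtain ⟨l', h1, rfl⟩ := mem_image.1 hl
          exact c0 _ _ _ _ h1
        · unfold acc at hl
          rcases mem_union.1 hl with hl | hl
          · obtain ⟨l', h1, rfl⟩ := mem_image.1 hl
            exact c0 _ _ _ _ h1
          · obtain ⟨l', h1, rfl⟩ := mem_image.1 hl
            exact c1 _ _ _ h1
      | true =>
        rcases j with _ | j
        · unfold acc at hl
          rcases mem_union.1 hl with hl | hl
          · obtain ⟨l', h1, rfl⟩ := mem_image.1 hl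
            exact c0 _ _ _ _ h1
          · obtain ⟨l', h1, rfl⟩ := mem_image.1 hl
            exact c2 _ _ h1
        · unfold acc at hl
          rcases mem_union.1 hl with hl | hl
          · rcases mem_union.1 hl with hl | hl
            · obtain ⟨l', h1, rfl⟩ := mem_image.1 hl
              exact c0 _ _ _ _ h1
            · obtain ⟨l', h1, rfl⟩ := mem_image.1 hl
              exact c1 _ _ _ h1
          · obtain ⟨l', h1, rfl⟩ := mem_image.1 hl
            exact c2 _ _ h1

end Pool.Agent.N444.Phy
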