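import Pool.Agent.N444.Phy.Lower

/-!
# The partitions coded by accepted words
-/

set_option autoImplicit false

namespace Pool.Agent.N444.Phy
open Pool.Agent.R935.Phylo Finset

/-- the partition coded by a word. -/
def QW (l : List (Fin 3)) : Setoid (Fin (440 + 2)) :=
  R (univ.filter fun x : Fin (440 + 2) => l.getD x 0 = 0)
    (univ.filter fun x : Fin (440 + 2) => l.getD x 0 = 2)

theorem mem_QW {l : List (Fin 3)} {x y : Fin (440 + 2)} : QW l x y ↔
    x = y ∨ (l.getD x 0 ≠ 0 ∧ l.getD y 0 ≠ 0 ∧
      ∀ e : Fin (440 + 2), l.getD e 0 = 2 → (e < x ↔ e < y)) := by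
  unfold QW
  rw [R_iff]
  simp only [mem_filter, mem_univ, true_and, ne_eq]

theorem getD_lt {l : List (Fin 3)} {y : ℕ} (h : l.getD y 0 ≠ 0) : y < l.length := by
  by_contra hcon
  exact h (List.getD_eq_default _ _ (not_lt.1 hcon))

theorem lt_QW {l : List (Fin 3)} (h : Ok false l) (hlen : l.length = 440 + 2)
    (x : Fin (440 + 2)) : lt (QW l) x = l.getD x 0 := by
  obtain ⟨h1, h2, -⟩ := h
  rcases fin3 (l.getD x 0) with hx | hx | hx
  · rw [hx, lt_zero]
    exact sing_of_mem_R (by simp only [mem_filter, mem_univ, true_and]; exact hx)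
  · rw [hx, lt_one]
    obtain ⟨y, h3, h4, h5⟩ := h1 x hx
    have hy : y < 440 + 2 := by
      have := getD_lt h4
      omega
    refine ⟨⟨y, hy⟩, h3, mem_QW.2 (Or.inr ⟨by rw [hx]; decide, h4, ?_⟩)⟩
    intro e he
    constructor
    · intro h6
      exact h6.trans h3
    · intro h6
      by_contra h7
      rcases (not_lt.1 h7).lt_or_eq with h8 | h8
      · have := h5 e h8 h6
        rw [he] at this
        exact absurd this (by decide)
      · rw [← h8, hx] at he
        exact absurd he (by decide)
  · rw [hx, lt_two]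
    constructor
    · rcases h2 x hx with ⟨y, h3, h4, h5⟩ | ⟨h3, -⟩
      · rw [not_mem_sing]
        have hy : y < 440 + 2 := lt_trans h3 x.2
        refine ⟨⟨y, hy⟩, mem_QW.2 (Or.inr ⟨by rw [hx]; decide,
          by simp only; rw [h4]; decide, ?_⟩), ?_⟩
        · intro e he
          constructor
          · intro h6
            by_contra h7
            rcases (not_lt.1 h7).lt_or_eq with h8 | h8
            · have := h5 e h8 h6
              rw [he] at this
              exact absurd this (by decide)
            · have h9 : (e : ℕ) = y := by rw [← h8]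
              rw [h9, h4] at he
              exact absurd he (by decide)
          · intro h6
            exact lt_trans h6 h3
        · intro h6
          rw [← h6] at h3
          exact absurd h3 (lt_irrefl _)
      · exact absurd h3 (by decide)
    · intro y hy
      rcases mem_QW.1 hy with h3 | ⟨-, -, h3⟩
      · exact h3.ge
      · by_contra h4
        exact absurd ((h3 x hx).2 (not_le.1 h4)) (lt_irrefl _)

open Classical in
theorem card_QW {l : List (Fin 3)} (h : Ok false l) (hlen : l.length = 440 + 2) {j : ℕ}
    (hj : ∑ t ∈ range l.length, (if l.getD t 0 = 1 then 1 else 0) = j) :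
    Nat.card (Quotient (QW l)) = 440 + 2 - j := by
  have h2 := card_filter_add_card_filter_not (s := (univ : Finset (Fin (440 + 2))))
    (fun x => ∀ y, QW l x y → y ≤ x)
  rw [← card_quot, card_univ, Fintype.card_fin] at h2
  have h3 : #(univ.filter fun x : Fin (440 + 2) => ¬ ∀ y, QW l x y → y ≤ x) = j := by
    have h4 : (univ.filter fun x : Fin (440 + 2) => ¬ ∀ y, QW l x y → y ≤ x) =
        univ.filter fun x : Fin (440 + 2) => l.getD x 0 = 1 := by
      ext x
      simp only [mem_filter, mem_univ, true_and]
      rw [← lt_QW h hlen x, lt_one]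
      push Not
      constructor
      · rintro ⟨y, h5, h6⟩
        exact ⟨y, h6, h5⟩
      · rintro ⟨y, h5, h6⟩
        exact ⟨y, h6, h5⟩
    rw [h4, card_filter, Fin.sum_univ_eq_sum_range (fun t => if l.getD t 0 = 1 then 1 else 0)
      (440 + 2), ← hlen]
    exact hj
  omega

theorem CF_QW {l : List (Fin 3)} (hs : ∀ x : Fin (440 + 2), l.getD x 0 ≠ 0 → kd x = 1) :
    CF (QW l) := by
  intro i j x h1 h2 h3
  by_cases hx : l.getD x 0 = 0
  · exact Or.inr (sing_of_mem_R (by simp only [mem_filter, mem_univ, true_and]; exact hx))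
  · left
    rcases mem_QW.1 h3 with h4 | ⟨h4, h5, h6⟩
    · rw [h4] at h1
      omega
    · have e1 := hs i h4
      have e2 := hs j h5
      have e3 := hs x hx
      unfold key at h1 h2
      rw [e1, e3] at h1
      rw [e2, e3] at h2
      have h7 : i < x := by rw [Fin.lt_def]; omega
      have h8 : x < j := by rw [Fin.lt_def]; omega
      refine mem_QW.2 (Or.inr ⟨h4, hx, ?_⟩)
      intro e he
      exact ⟨fun h => h.trans h7, fun h => (h6 e he).2 (h.trans h8)⟩

open Classical in
theorem lower_left (ks : List Bool) (hks : ks.length = 440 + 2)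
    (hk1 : ∀ x : Fin (440 + 2), ks.getD x false = true → kd x = 1) (j : ℕ) (hj : 0 < j) :
    (ks.count true + j - 1).choose (2 * j) ≤
      commonNT TT FF (440 + 2 - j) + (440 + 2).choose (440 + 2 - j - 1) := by
  rw [← (card_acc ks).1 j, commonNT_eq]
  have h1 : #(acc ks false j) ≤ #(Fam (440 + 2 - j)) := by
    apply card_le_card_of_injOn QW
    · intro l hl
      obtain ⟨h1, h2, h3, h4⟩ := acc_prop ks false j l hl
      rw [mem_coe, mem_Fam]
      exact ⟨conv1_R _ _, CF_QW (fun x hx => hk1 x (h3 x hx)), card_QW h2 (h1.trans hks) h4⟩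
    · intro l hl l' hl' hll
      obtain ⟨h1, h2, h3, h4⟩ := acc_prop ks false j l hl
      obtain ⟨h1', h2', h3', h4'⟩ := acc_prop ks false j l' hl'
      have h5 : ∀ x : Fin (440 + 2), l.getD x 0 = l'.getD x 0 := by
        intro x
        rw [← lt_QW h2 (h1.trans hks), ← lt_QW h2' (h1'.trans hks), hll]
      apply List.ext_getElem (h1.trans h1'.symm)
      intro n hn hn'
      have := h5 ⟨n, by omega⟩
      simp only at this
      rwa [List.getD_eq_getElem _ _ hn, List.getD_eq_getElem _ _ hn'] at this
  refine h1.trans ?_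
  have h2 := card_filter_add_card_filter_not (s := Fam (440 + 2 - j)) NonTrivial
  have h3 := card_triv (440 + 2 - j) (by omega)
  omega

end Pool.Agent.N444.Phy
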