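import Pool.Agent.N444.Phy.NumI

/-!
# Numerical evaluation of the automata with a marked class
-/

set_option autoImplicit false

namespace Pool.Agent.N444.Phy
open Pool.Agent.R935.Phylo Finset

section
variable (al be ga op cl : ℕ → Bool)

/-- value of the automaton with unit weights. -/
abbrev W (i : ℕ) (s : Fin 5) : ℕ := V (trC al be ga op cl) 0 (![1, 1, 1]) i s

theorem W_zero (i : ℕ) : W al be ga op cl (i + 1) 0 =
    W al be ga op cl i 0 + (if al i then 0 else W al be ga op cl i 1) := by
  unfold W
  rw [V, Fintype.sum_prod_type]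
  simp [Fin.sum_univ_succ, trC]
  split_ifs <;> simp_all

theorem W_one (i : ℕ) : W al be ga op cl (i + 1) 1 =
    W al be ga op cl i 1 +
      (if al i then 0 else W al be ga op cl i 0 + W al be ga op cl i 1) := by
  unfold W
  rw [V, Fintype.sum_prod_type]
  simp [Fin.sum_univ_succ, trC]
  split_ifs <;> simp_all <;> omega

theorem W_two (i : ℕ) : W al be ga op cl (i + 1) 2 =
    W al be ga op cl i 2 +
      (if be i then 0 else W al be ga op cl i 2 + (if op i then W al be ga op cl i 0 else 0)) := by
  unfold W
  rw [V, Fintype.sum_prod_type]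
  simp [Fin.sum_univ_succ, trC]
  split_ifs <;> simp_all <;> omega

theorem W_three (i : ℕ) : W al be ga op cl (i + 1) 3 =
    W al be ga op cl i 3 + (if ga i then 0 else W al be ga op cl i 4) +
      (if be i then 0 else (if cl i then W al be ga op cl i 2 else 0)) := by
  unfold W
  rw [V, Fintype.sum_prod_type]
  simp [Fin.sum_univ_succ, trC]
  split_ifs <;> simp_all <;> omega

theorem W_four (i : ℕ) : W al be ga op cl (i + 1) 4 =
    W al be ga op cl i 4 +
      (if ga i then 0 else W al be ga op cl i 3 + W al be ga op cl i 4) := by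
  unfold W
  rw [V, Fintype.sum_prod_type]
  simp [Fin.sum_univ_succ, trC]
  split_ifs <;> simp_all <;> omega

/-- evaluation of the automaton. -/
def runC : ℕ → ℕ → ℕ → ℕ → ℕ → ℕ → ℕ → ℕ
  | 0, _, _, _, _, d, _ => d
  | n + 1, i, a, b, c, d, e =>
    runC n (i + 1) (a + (if al i then 0 else b)) (b + (if al i then 0 else a + b))
      (c + (if be i then 0 else c + (if op i then a else 0)))
      (d + (if ga i then 0 else e) + (if be i then 0 else (if cl i then c else 0)))
      (e + (if ga i then 0 else d + e))

theorem runC_eq (n : ℕ) : ∀ i, runC al be ga op cl n i (W al be ga op cl i 0)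
    (W al be ga op cl i 1) (W al be ga op cl i 2) (W al be ga op cl i 3)
    (W al be ga op cl i 4) = W al be ga op cl (i + n) 3 := by
  induction n with
  | zero => intro i; rfl
  | succ n ih =>
    intro i
    have h := ih (i + 1)
    have e : i + (n + 1) = i + 1 + n := by ring
    rw [e, ← h, W_zero, W_one, W_two, W_three, W_four]
    rfl

end

end Pool.Agent.N444.Phy
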