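import Pool.Agent.N444.Phy.LowerW

/-!
# Numerical evaluation of the automata
-/

set_option autoImplicit false

namespace Pool.Agent.N444.Phy
open Pool.Agent.R935.Phylo Finset

theorem VI_zero (p q i : ℕ) : V (trI okY okZ) 0 (![q, p, q]) (i + 1) 0 =
    q * V (trI okY okZ) 0 (![q, p, q]) i 0 +
      (if okY i then q * V (trI okY okZ) 0 (![q, p, q]) i 1 else 0) +
      (if okZ i then q * V (trI okY okZ) 0 (![q, p, q]) i 2 else 0) := by
  rw [V, Fintype.sum_prod_type]
  simp [Fin.sum_univ_three, trI]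

theorem VI_one (p q i : ℕ) : V (trI okY okZ) 0 (![q, p, q]) (i + 1) 1 =
    (if okY i then p * V (trI okY okZ) 0 (![q, p, q]) i 0 else 0) +
      (q * V (trI okY okZ) 0 (![q, p, q]) i 1 +
      (if okY i then p * V (trI okY okZ) 0 (![q, p, q]) i 1 else 0)) := by
  rw [V, Fintype.sum_prod_type]
  simp [Fin.sum_univ_three, trI]

theorem VI_two (p q i : ℕ) : V (trI okY okZ) 0 (![q, p, q]) (i + 1) 2 =
    (if okZ i then p * V (trI okY okZ) 0 (![q, p, q]) i 0 else 0) +
      (q * V (trI okY okZ) 0 (![q, p, q]) i 2 +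
      (if okZ i then p * V (trI okY okZ) 0 (![q, p, q]) i 2 else 0)) := by
  rw [V, Fintype.sum_prod_type]
  simp [Fin.sum_univ_three, trI]

/-- evaluation of the pure automaton with weights `1, 2, 1`. -/
def runI : ℕ → ℕ → ℕ → ℕ → ℕ → ℕ
  | 0, _, a, _, _ => a
  | n + 1, i, a, b, c =>
    match kd i with
    | 1 => runI n (i + 1) (a + b) (2 * a + (b + 2 * b)) c
    | 3 => runI n (i + 1) (a + b + c) (2 * a + (b + 2 * b)) (2 * a + (c + 2 * c))
    | _ => runI n (i + 1) (a + c) b (2 * a + (c + 2 * c))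

theorem runI_eq (n : ℕ) : ∀ i, runI n i (V (trI okY okZ) 0 (![1, 2, 1]) i 0)
    (V (trI okY okZ) 0 (![1, 2, 1]) i 1) (V (trI okY okZ) 0 (![1, 2, 1]) i 2) =
    V (trI okY okZ) 0 (![1, 2, 1]) (i + n) 0 := by
  induction n with
  | zero => intro i; rfl
  | succ n ih =>
    intro i
    have h := ih (i + 1)
    have e : i + (n + 1) = i + 1 + n := by ring
    rw [e, ← h, VI_zero, VI_one, VI_two]
    have h1 := kd_lt i
    have h2 : kd i = 0 ∨ kd i = 1 ∨ kd i = 2 ∨ kd i = 3 := by omega
    conv_lhs => rw [runI]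
    rcases h2 with h2 | h2 | h2 | h2
    · have hY : okY i = false := by unfold okY; rw [h2]; rfl
      have hZ : okZ i = true := by unfold okZ; rw [h2]; rfl
      simp [h2, hY, hZ]
    · have hY : okY i = true := by unfold okY; rw [h2]; rfl
      have hZ : okZ i = false := by unfold okZ; rw [h2]; rfl
      simp [h2, hY, hZ]
    · have hY : okY i = false := by unfold okY; rw [h2]; rfl
      have hZ : okZ i = true := by unfold okZ; rw [h2]; rfl
      simp [h2, hY, hZ]
    · have hY : okY i = true := by unfold okY; rw [h2]; rfl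
      have hZ : okZ i = true := by unfold okZ; rw [h2]; rfl
      simp [h2, hY, hZ]

end Pool.Agent.N444.Phy
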