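import Pool.Agent.N444.Phy.Gen

/-!
# Open classes at a boundary and the two automata
-/

set_option autoImplicit false

namespace Pool.Agent.N444.Phy
open Pool.Agent.R935.Phylo Finset

variable {N : ℕ}

/-- some class has elements on both sides of the boundary `i`. -/
def openAt (Q : Setoid (Fin N)) (i : ℕ) : Prop :=
  ∃ x y : Fin N, x.val < i ∧ i ≤ y.val ∧ Q x y

theorem conv1 {Q : Setoid (Fin N)} (hQ : Conv 1 Q) {x y z : Fin N} (h1 : x < z) (h2 : z < y)
    (h3 : Q x y) (h4 : z ∉ sing Q) : Q x z := by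
  rcases hQ x y z h1 h2 h3 with h | h
  · exact h
  · exact absurd (mem_sing.2 h) h4

theorem not_open_zero (Q : Setoid (Fin N)) : ¬ openAt Q 0 := by
  rintro ⟨x, y, h, -⟩
  omega

theorem not_open_end (Q : Setoid (Fin N)) : ¬ openAt Q N := by
  rintro ⟨x, y, -, h, -⟩
  have := y.2
  omega

/-- closed boundary, letter `0`. -/
theorem closed_S {Q : Setoid (Fin N)} {i : Fin N} (h : ¬ openAt Q i) (hl : lt Q i = 0) :
    ¬ openAt Q (i + 1) := by
  rintro ⟨x, y, h1, h2, h3⟩
  have hs := mem_sing.1 (lt_zero.1 hl)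
  rcases Nat.lt_succ_iff_lt_or_eq.1 h1 with h4 | h4
  · exact h ⟨x, y, h4, by omega, h3⟩
  · have : x = i := Fin.ext h4
    subst this
    have := hs y h3
    subst this
    omega

/-- closed boundary: the letter is not `2`. -/
theorem closed_X {Q : Setoid (Fin N)} {i : Fin N} (h : ¬ openAt Q i) (hl : lt Q i = 2) :
    False := by
  obtain ⟨h1, h2⟩ := lt_two.1 hl
  obtain ⟨y, h3, h4⟩ := not_mem_sing.1 h1
  have h5 : y < i := lt_of_le_of_ne (h2 y h3) h4
  exact h ⟨y, i, h5, le_rfl, Q.symm' h3⟩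

/-- letter `1` opens. -/
theorem open_of_one {Q : Setoid (Fin N)} {i : Fin N} (hl : lt Q i = 1) : openAt Q (i + 1) := by
  obtain ⟨y, h1, h2⟩ := lt_one.1 hl
  exact ⟨i, y, by omega, h1, h2⟩

theorem not_sing_of_ne_zero {Q : Setoid (Fin N)} {i : Fin N} (hl : lt Q i ≠ 0) : i ∉ sing Q :=
  fun h => hl (lt_zero.2 h)

/-- an element inside the hull which is not a singleton belongs to the class. -/
theorem mem_of_hull {Q : Setoid (Fin N)} (hQ : Conv 1 Q) {i x y : Fin N} (h1 : x.val < i)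
    (h2 : (i : ℕ) ≤ y) (h3 : Q x y) (hl : lt Q i ≠ 0) : Q x i := by
  rcases h2.lt_or_eq with h4 | h4
  · exact conv1 hQ h1 h4 h3 (not_sing_of_ne_zero hl)
  · have : i = y := Fin.ext h4
    rwa [this]

/-- witness persists for letter `0`. -/
theorem wit_S {Q : Setoid (Fin N)} {i x y : Fin N} (h1 : x.val < i)
    (h2 : (i : ℕ) ≤ y) (h3 : Q x y) (hl : lt Q i = 0) : (i : ℕ) + 1 ≤ y := by
  rcases h2.lt_or_eq with h4 | h4
  · exact h4
  · have h5 : i = y := Fin.ext h4
    subst h5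
    have := mem_sing.1 (lt_zero.1 hl) x (Q.symm' h3)
    subst this
    omega

/-- letter `2` closes. -/
theorem not_open_of_two {Q : Setoid (Fin N)} (hQ : Conv 1 Q) {i : Fin N} (hl : lt Q i = 2) :
    ¬ openAt Q (i + 1) := by
  rintro ⟨x, y, h1, h2, h3⟩
  obtain ⟨h4, h5⟩ := lt_two.1 hl
  have h6 : Q i y := by
    rcases Nat.lt_succ_iff_lt_or_eq.1 h1 with h7 | h7
    · exact Q.trans' (Q.symm' (mem_of_hull hQ h7 (by omega) h3 (by rw [hl]; decide))) h3
    · have : x = i := Fin.ext h7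
      rwa [this] at h3
  have h8 : y ≤ i := h5 y h6
  have h9 : (y : ℕ) ≤ i := h8
  omega

end Pool.Agent.N444.Phy
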