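import Pool.Agent.N444.Phy.Kinds

/-!
# The upper bound for the number of common partitions
-/

set_option autoImplicit false

namespace Pool.Agent.N444.Phy
open Pool.Agent.R935.Phylo Finset

/-- the common partitions with `k` classes. -/
noncomputable def Fam (k : ℕ) : Finset (Setoid (Fin (440 + 2))) :=
  (finite_setoid _ {Q | Conv 1 Q ∧ CF Q ∧ Nat.card (Quotient Q) = k}).toFinset

theorem mem_Fam {k : ℕ} {Q : Setoid (Fin (440 + 2))} :
    Q ∈ Fam k ↔ Conv 1 Q ∧ CF Q ∧ Nat.card (Quotient Q) = k := by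
  unfold Fam
  rw [Set.Finite.mem_toFinset]
  rfl

open Classical in
theorem card_I (k p q : ℕ) :
    #((Fam k).filter fun Q => ¬ HasY 0 Q ∧ ¬ HasY 2 Q) * (q ^ k * p ^ (440 + 2 - k)) ≤
      V (trI okY okZ) 0 (![q, p, q]) (440 + 2) 0 := by
  apply fam_bound (trI okY okZ) 0 0 (stI okY)
  · intro Q hQ
    exact (mem_Fam.1 (mem_filter.1 hQ).1).1
  · intro Q hQ
    exact (mem_Fam.1 (mem_filter.1 hQ).1).2.2
  · intro Q _
    exact stI_zero (not_open_zero Q)
  · intro Q _
    exact stI_zero (not_open_end Q)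
  · intro Q hQ i hi
    obtain ⟨h1, h2, h3⟩ := mem_filter.1 hQ
    exact validI (mem_Fam.1 h1).1 (pure_of h2 h3) i hi

open Classical in
theorem card_A (k p q : ℕ) :
    #((Fam k).filter fun Q => ¬ HasLR Q ∧ HasY 0 Q) * (q ^ k * p ^ (440 + 2 - k)) ≤
      V trA 0 (![q, p, q]) (440 + 2) 3 := by
  apply fam_bound trA 0 3 (fun Q => stC (c0 0 Q) Q)
  · intro Q hQ
    exact (mem_Fam.1 (mem_filter.1 hQ).1).1
  · intro Q hQ
    exact (mem_Fam.1 (mem_filter.1 hQ).1).2.2
  · intro Q _
    exact stC_start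
  · intro Q _
    exact stC_end
  · intro Q hQ i hi
    obtain ⟨h1, h2, h3⟩ := mem_filter.1 hQ
    obtain ⟨h4, h5, -⟩ := mem_Fam.1 h1
    exact validA h4 h5 h2 h3 i hi

open Classical in
theorem card_B (k p q : ℕ) :
    #((Fam k).filter fun Q => ¬ HasLR Q ∧ HasY 2 Q) * (q ^ k * p ^ (440 + 2 - k)) ≤
      V trB 0 (![q, p, q]) (440 + 2) 3 := by
  apply fam_bound trB 0 3 (fun Q => stC (c0 2 Q) Q)
  · intro Q hQ
    exact (mem_Fam.1 (mem_filter.1 hQ).1).1
  · intro Q hQ
    exact (mem_Fam.1 (mem_filter.1 hQ).1).2.2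
  · intro Q _
    exact stC_start
  · intro Q _
    exact stC_end
  · intro Q hQ i hi
    obtain ⟨h1, h2, h3⟩ := mem_filter.1 hQ
    obtain ⟨h4, h5, -⟩ := mem_Fam.1 h1
    exact validB h4 h5 h2 h3 i hi

open Classical in
theorem card_triv (k : ℕ) (hk : k < 440 + 2) :
    #((Fam k).filter fun Q => ¬ NonTrivial Q) ≤ (440 + 2).choose (k - 1) := by
  have h0 : (440 + 2).choose (k - 1) = #(powersetCard (k - 1) (univ : Finset (Fin (440 + 2)))) := by
    rw [card_powersetCard, card_univ, Fintype.card_fin]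
  rw [h0]
  apply card_le_card_of_injOn (fun Q => sing Q)
  · intro Q hQ
    rw [mem_coe, mem_filter, mem_Fam] at hQ
    obtain ⟨⟨h1, h2, h3⟩, h4⟩ := hQ
    have h5 := card_quot' Q (exists_not_sing Q (by omega))
    rw [ends_eq_empty h4, card_empty] at h5
    have h6 : #(sing Q) = k - 1 := by omega
    rw [mem_coe, mem_powersetCard]
    exact ⟨subset_univ _, h6⟩
  · intro Q hQ Q' hQ' h
    rw [mem_coe, mem_filter, mem_Fam] at hQ hQ'
    have h' : sing Q = sing Q' := h
    rw [recover Q hQ.1.1, recover Q' hQ'.1.1, ends_eq_empty hQ.2, ends_eq_empty hQ'.2, h']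

/-- the last leaf which is not of kind `3`. -/
def e439 : Fin (440 + 2) := ⟨439, by norm_num⟩
/-- the first leaf of kind `3`. -/
def e440 : Fin (440 + 2) := ⟨440, by norm_num⟩
/-- the second leaf of kind `3`. -/
def e441 : Fin (440 + 2) := ⟨441, by norm_num⟩

theorem e439_lt {x : Fin (440 + 2)} : e439 < x ↔ 440 ≤ (x : ℕ) := by
  rw [Fin.lt_def]
  unfold e439
  simp only
  omega

theorem mem_R {S : Finset (Fin (440 + 2))} {x y : Fin (440 + 2)} :
    R S {e439} x y ↔ x = y ∨ (x ∉ S ∧ y ∉ S ∧ (440 ≤ (x : ℕ) ↔ 440 ≤ (y : ℕ))) := by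
  rw [R_iff]
  simp only [mem_singleton, forall_eq, e439_lt]

theorem sing_RW (S : Finset (Fin (440 + 2))) (hS : ∀ x ∈ S, (x : ℕ) < 440)
    (a b : Fin (440 + 2)) (hab : a ≠ b) (ha : a ∉ S) (hb : b ∉ S) (ha' : (a : ℕ) < 440)
    (hb' : (b : ℕ) < 440) : sing (R S {e439}) = S := by
  ext x
  constructor
  · intro hx
    by_contra hcon
    have hx' := mem_sing.1 hx
    by_cases h : 440 ≤ (x : ℕ)
    · have h440 : e440 ∉ S := fun h' => by
        have := hS _ h'
        unfold e440 at this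
        simp only at this
        omega
      have h441 : e441 ∉ S := fun h' => by
        have := hS _ h'
        unfold e441 at this
        simp only at this
        omega
      have h1 := hx' e440 (mem_R.2 (Or.inr ⟨hcon, h440, by unfold e440; simp only; omega⟩))
      have h2 := hx' e441 (mem_R.2 (Or.inr ⟨hcon, h441, by unfold e441; simp only; omega⟩))
      rw [← h1] at h2
      have := Fin.ext_iff.1 h2
      unfold e440 e441 at this
      simp only at this
      omega
    · have h1 := hx' a (mem_R.2 (Or.inr ⟨hcon, ha, by omega⟩))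
      have h2 := hx' b (mem_R.2 (Or.inr ⟨hcon, hb, by omega⟩))
      exact hab (h1.trans h2.symm)
  · intro hx
    rw [mem_sing]
    intro y hy
    rcases mem_R.1 hy with h | ⟨h, -⟩
    · exact h.symm
    · exact absurd hx h

theorem card_RW (S : Finset (Fin (440 + 2))) (hS : ∀ x ∈ S, (x : ℕ) < 440)
    (a b : Fin (440 + 2)) (hab : a ≠ b) (ha : a ∉ S) (hb : b ∉ S) (ha' : (a : ℕ) < 440)
    (hb' : (b : ℕ) < 440) : Nat.card (Quotient (R S {e439})) = #S + 2 := by
  classical
  have hs := sing_RW S hS a b hab ha hb ha' hb'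
  have h440 : e440 ∉ S := fun h' => by
    have := hS _ h'
    unfold e440 at this
    simp only at this
    omega
  have h441 : e441 ∉ S := fun h' => by
    have := hS _ h'
    unfold e441 at this
    simp only at this
    omega
  have he : #(ends (R S {e439})) = 1 := by
    obtain ⟨M, hM, hmax⟩ := Finset.exists_max_image
      (univ.filter fun x : Fin (440 + 2) => x ∉ S ∧ (x : ℕ) < 440) id
      ⟨a, by simp [ha, ha']⟩
    simp only [mem_filter, mem_univ, true_and, id] at hM hmax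
    rw [card_eq_one]
    refine ⟨M, ?_⟩
    ext x
    rw [mem_ends, hs, mem_singleton]
    constructor
    · rintro ⟨h1, h2, z, h3, h4⟩
      by_cases h : 440 ≤ (x : ℕ)
      · exfalso
        have h5 : (x : ℕ) < z := h3
        have h6 : (e441 : Fin (440 + 2)) ≤ x := h2 e441
          (mem_R.2 (Or.inr ⟨h1, h441, by unfold e441; simp only; omega⟩))
        have h7 : 441 ≤ (x : ℕ) := h6
        have := z.2
        omega
      · have h5 := hmax x ⟨h1, by omega⟩
        have h6 := h2 M (mem_R.2 (Or.inr ⟨h1, hM.1, by omega⟩))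
        exact le_antisymm h5 h6
    · rintro rfl
      refine ⟨hM.1, ?_, e440, ?_, h440⟩
      · intro y hy
        rcases mem_R.1 hy with h | ⟨-, h1, h2⟩
        · exact h.ge
        · exact hmax y ⟨h1, by omega⟩
      · rw [Fin.lt_def]
        unfold e440
        exact hM.2
  have := card_quot' (R S {e439}) ⟨a, by rw [hs]; exact ha⟩
  rw [hs, he] at this
  exact this

theorem lr_code {Q : Setoid (Fin (440 + 2))} (hQ : Conv 1 Q) (hF : CF Q) (hn : NonTrivial Q)
    (hl : HasLR Q) : Q = R (sing Q) {e439} ∧ (∀ x ∈ sing Q, (x : ℕ) < 440) ∧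
    ∃ a b : Fin (440 + 2), a ≠ b ∧ a ∉ sing Q ∧ b ∉ sing Q ∧ (a : ℕ) < 440 ∧ (b : ℕ) < 440 := by
  obtain ⟨i, j, hij, hi, hj⟩ := hl
  have hlr := lr_trivial hQ hF hij hi hj
  have hi' := kd_zero hi
  have hj' := kd_two hj
  have hne : i ≠ j := by
    intro h
    rw [h] at hi'
    omega
  have h1 : ∃ u v, Q u v ∧ u ≠ v ∧ ¬ Q i u := by
    obtain ⟨a, b, c, d, hab, hab', hcd, hcd', hac⟩ := hn
    by_cases h : Q i a
    · exact ⟨c, d, hcd, hcd', fun h' => hac (Q.trans' (Q.symm' h) h')⟩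
    · exact ⟨a, b, hab, hab', h⟩
  obtain ⟨u, v, huv, huv', hiu⟩ := h1
  have hiv : ¬ Q i v := fun h => hiu (Q.trans' h (Q.symm' huv))
  have hk : ∀ x, (∃ y, Q x y ∧ y ≠ x) → ¬ Q i x → 440 ≤ (x : ℕ) := by
    rintro x ⟨y, hxy, hyx⟩ hix
    by_contra hcon
    rcases hlr x (fun h => hcon (kd_three.1 h)) with h | h
    · exact hix h
    · exact hyx (mem_sing.1 h y hxy)
  have hu := hk u ⟨v, huv, huv'.symm⟩ hiu
  have hv := hk v ⟨u, Q.symm' huv, huv'⟩ hiv
  have hcl : ∀ x : Fin (440 + 2), 440 ≤ (x : ℕ) → Q u x ∧ ¬ Q i x := by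
    intro x hx
    have hx2 := x.2
    have hu2 := u.2
    have hv2 := v.2
    have huv3 : (u : ℕ) ≠ v := fun h => huv' (Fin.ext h)
    have h3 : (x : ℕ) = u ∨ (x : ℕ) = v := by omega
    rcases h3 with h3 | h3
    · rw [Fin.ext h3]; exact ⟨Q.refl' _, hiu⟩
    · rw [Fin.ext h3]; exact ⟨huv, hiv⟩
  have hns : ∀ x : Fin (440 + 2), 440 ≤ (x : ℕ) → x ∉ sing Q := by
    intro x hx hx'
    have h3 := mem_sing.1 hx'
    have h4 := (hcl x hx).1
    have h5 := h3 u (Q.symm' h4)
    have h6 := h3 v (Q.trans' (Q.symm' h4) huv)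
    exact huv' (h5.trans h6.symm)
  have hC : ∀ x : Fin (440 + 2), x ∉ sing Q → (x : ℕ) < 440 → Q i x := by
    intro x hx hx'
    rcases hlr x (fun h => by have := kd_three.1 h; omega) with h | h
    · exact h
    · exact absurd h hx
  refine ⟨?_, ?_, i, j, hne, not_sing_of_rel hij hne,
    not_sing_of_rel (Q.symm' hij) hne.symm, hi'.2, by omega⟩
  · apply Setoid.ext
    intro x y
    rw [mem_R]
    constructor
    · intro hxy
      by_cases h : x = y
      · exact Or.inl h
      · have h3 := not_sing_of_rel hxy h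
        have h4 := not_sing_of_rel (Q.symm' hxy) (Ne.symm h)
        refine Or.inr ⟨h3, h4, ?_, ?_⟩
        · intro h5
          by_contra h6
          exact (hcl x h5).2 (Q.trans' (hC y h4 (by omega)) (Q.symm' hxy))
        · intro h5
          by_contra h6
          exact (hcl y h5).2 (Q.trans' (hC x h3 (by omega)) hxy)
    · rintro (rfl | ⟨h3, h4, h5⟩)
      · exact Q.refl' _
      · by_cases h6 : 440 ≤ (x : ℕ)
        · exact Q.trans' (Q.symm' (hcl x h6).1) (hcl y (h5.1 h6)).1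
        · exact Q.trans' (Q.symm' (hC x h3 (by omega))) (hC y h4 (by omega))
  · intro x hx
    by_contra hcon
    exact hns x (not_lt.1 hcon) hx

theorem card_lt440 : #(univ.filter fun x : Fin (440 + 2) => (x : ℕ) < 440) = 440 := by
  have h : (univ.filter fun x : Fin (440 + 2) => (x : ℕ) < 440) =
      Finset.map (Fin.castLEEmb (by norm_num : 440 ≤ 440 + 2)) univ := by
    ext x
    simp only [mem_filter, mem_univ, true_and, mem_map]
    constructor
    · intro hx
      exact ⟨⟨x, hx⟩, rfl⟩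
    · rintro ⟨y, rfl⟩
      exact y.2
  rw [h, card_map, card_univ, Fintype.card_fin]

open Classical in
theorem card_LR (k : ℕ) :
    #((Fam k).filter fun Q => NonTrivial Q ∧ HasLR Q) ≤ (440).choose (k - 2) := by
  have h0 : (440).choose (k - 2) = #(powersetCard (k - 2)
      (univ.filter fun x : Fin (440 + 2) => (x : ℕ) < 440)) := by
    rw [card_powersetCard, card_lt440]
  rw [h0]
  apply card_le_card_of_injOn (fun Q => sing Q)
  · intro Q hQ
    rw [mem_coe, mem_filter, mem_Fam] at hQ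
    obtain ⟨⟨h1, h2, h3⟩, h4, h5⟩ := hQ
    obtain ⟨h6, h7, a, b, hab, ha, hb, ha', hb'⟩ := lr_code h1 h2 h4 h5
    have h8 := card_RW (sing Q) h7 a b hab ha hb ha' hb'
    rw [← h6, h3] at h8
    have h9 : #(sing Q) = k - 2 := by omega
    rw [mem_coe, mem_powersetCard]
    refine ⟨?_, h9⟩
    intro x hx
    simpa using h7 x hx
  · intro Q hQ Q' hQ' h
    rw [mem_coe, mem_filter, mem_Fam] at hQ hQ'
    have h' : sing Q = sing Q' := h
    rw [(lr_code hQ.1.1 hQ.1.2.1 hQ.2.1 hQ.2.2).1, (lr_code hQ'.1.1 hQ'.1.2.1 hQ'.2.1 hQ'.2.2).1,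
      h']

open Classical in
theorem card_Fam_le (k : ℕ) (hk : k < 440 + 2) :
    #(Fam k) ≤ (440 + 2).choose (k - 1) + (440).choose (k - 2) +
      #((Fam k).filter fun Q => ¬ HasY 0 Q ∧ ¬ HasY 2 Q) +
      #((Fam k).filter fun Q => ¬ HasLR Q ∧ HasY 0 Q) +
      #((Fam k).filter fun Q => ¬ HasLR Q ∧ HasY 2 Q) := by
  have hsub : Fam k ⊆ ((((Fam k).filter fun Q => ¬ NonTrivial Q) ∪
      ((Fam k).filter fun Q => NonTrivial Q ∧ HasLR Q)) ∪
      ((Fam k).filter fun Q => ¬ HasY 0 Q ∧ ¬ HasY 2 Q)) ∪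
      ((Fam k).filter fun Q => ¬ HasLR Q ∧ HasY 0 Q) ∪
      ((Fam k).filter fun Q => ¬ HasLR Q ∧ HasY 2 Q) := by
    intro Q hQ
    simp only [mem_union, mem_filter, hQ, true_and]
    tauto
  refine (card_le_card hsub).trans ?_
  refine (card_union_le _ _).trans (add_le_add ?_ le_rfl)
  refine (card_union_le _ _).trans (add_le_add ?_ le_rfl)
  refine (card_union_le _ _).trans (add_le_add ?_ le_rfl)
  exact (card_union_le _ _).trans (add_le_add (card_triv k hk) (card_LR k))

end Pool.Agent.N444.Phy
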